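import Pool.Graph.R_pool_sql_team_seeded_5cf16337.K3h4.DS.Fd

/-! Polynomials of the operator on a torus and on the lattice (periodic potential). -/

set_option autoImplicit false
set_option linter.unusedSectionVars false

open scoped BigOperators

namespace Pool.Agent.H69.DS.Per

open Pool.Agent.H4R2.AE (T Hop)
open Pool.Agent.H541R3.AND.Trans
open Pool.Agent.H541R3.AND.Heat (QT)
open Pool.Agent.K3h4.AN.Dl (pol QL ql_symm)

variable {d L : ℕ} [NeZero L]

/-- the periodic extension of a potential, with origin `x` -/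
def ext (V : T d L → ℝ) (x : T d L) (z : Zd d) : ℝ := V (pr L z + x)

/-- indicator of the sites above `y` -/
noncomputable def ind (x y : T d L) (z : Zd d) : ℝ := by
  classical
  exact if pr L z + x = y then 1 else 0

/-- push forward to the torus -/
noncomputable def psh (x : T d L) (f : Zd d → ℝ) (y : T d L) : ℝ := ∑' z, f z * ind x y z

theorem ind_add (x y : T d L) (z : Zd d) (i : Fin d) :
    ind x y (z + Pi.single i 1) = ind x (y - Pi.single i 1) z := by
  unfold ind
  rw [pr_add, pr_single]
  congr 1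
  apply propext
  constructor
  · intro h; rw [← h]; abel
  · intro h
    have := congrArg (fun w => w + Pi.single i 1) h
    simp only [sub_add_cancel] at this
    rw [← this]; abel

theorem ind_sub (x y : T d L) (z : Zd d) (i : Fin d) :
    ind x y (z - Pi.single i 1) = ind x (y + Pi.single i 1) z := by
  unfold ind
  rw [pr_sub, pr_single]
  congr 1
  apply propext
  constructor
  · intro h; rw [← h]; abel
  · intro h
    have := congrArg (fun w => w - Pi.single i 1) h
    simp only [add_sub_cancel_right] at this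
    rw [← this]; abel

theorem QZ_ind (c0 b lam : ℝ) (V : T d L → ℝ) (x y : T d L) (z : Zd d) :
    QZ c0 b lam (ext V x) (ind x y) z = ind x y z - 1 / b *
      ((∑ i : Fin d, (2 * ind x y z - ind x (y - Pi.single i 1) z -
        ind x (y + Pi.single i 1) z)) + lam * V y * ind x y z - c0 * ind x y z) := by
  unfold QZ HZ
  simp only [ind_add, ind_sub]
  have h : ext V x z * ind x y z = V y * ind x y z := by
    unfold ext ind
    split_ifs with h
    · rw [h]
    · simp
  rw [mul_assoc lam, h, ← mul_assoc]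

theorem psh_QZ (c0 b lam : ℝ) (V : T d L → ℝ) (x : T d L) (f : Zd d → ℝ) (hf : FS f) :
    psh x (QZ c0 b lam (ext V x) f) = QT c0 b lam V (psh x f) := by
  funext y
  unfold psh
  rw [symm c0 b lam (ext V x) f (ind x y) hf]
  have s : ∀ φ : Zd d → ℝ, Summable fun z => f z * φ z := fun φ => hf.summable φ
  have e : ∀ z, f z * QZ c0 b lam (ext V x) (ind x y) z =
      (1 - 1 / b * (lam * V y - c0)) * (f z * ind x y z) - 1 / b *
        ∑ i : Fin d, (2 * (f z * ind x y z) - f z * ind x (y - Pi.single i 1) z -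
          f z * ind x (y + Pi.single i 1) z) := by
    intro z
    rw [QZ_ind]
    have : ∑ i : Fin d, (2 * (f z * ind x y z) - f z * ind x (y - Pi.single i 1) z -
          f z * ind x (y + Pi.single i 1) z) = f z * ∑ i : Fin d, (2 * ind x y z -
            ind x (y - Pi.single i 1) z - ind x (y + Pi.single i 1) z) := by
      rw [Finset.mul_sum]
      exact Finset.sum_congr rfl fun i _ => by ring
    rw [this]
    ring
  have s2 : ∀ i : Fin d, Summable fun z => 2 * (f z * ind x y z) -
      f z * ind x (y - Pi.single i 1) z - f z * ind x (y + Pi.single i 1) z :=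
    fun i => (((s _).mul_left 2).sub (s _)).sub (s _)
  rw [tsum_congr e, ((s _).mul_left _).tsum_sub ((summable_sum fun i _ => s2 i).mul_left _),
    tsum_mul_left, tsum_mul_left, Summable.tsum_finsetSum fun i _ => s2 i]
  have e2 : ∀ i : Fin d, ∑' z, (2 * (f z * ind x y z) -
      f z * ind x (y - Pi.single i 1) z - f z * ind x (y + Pi.single i 1) z) =
      2 * ∑' z, f z * ind x y z - ∑' z, f z * ind x (y - Pi.single i 1) z -
        ∑' z, f z * ind x (y + Pi.single i 1) z := by
    intro i
    rw [(((s _).mul_left 2).sub (s _)).tsum_sub (s _), ((s _).mul_left 2).tsum_sub (s _),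
      tsum_mul_left]
  simp only [e2]
  unfold QT Hop
  have e3 : ∑ i : Fin d, (2 * ∑' z, f z * ind x y z - ∑' z, f z * ind x (y - Pi.single i 1) z -
      ∑' z, f z * ind x (y + Pi.single i 1) z) =
      ∑ i : Fin d, (2 * ∑' z, f z * ind x y z - ∑' z, f z * ind x (y + Pi.single i 1) z -
      ∑' z, f z * ind x (y - Pi.single i 1) z) := Finset.sum_congr rfl fun i _ => by ring
  rw [e3]
  ring

theorem psh_single (x : T d L) :
    psh x (Pi.single 0 1 : Zd d → ℝ) = (Pi.single x 1 : T d L → ℝ) := by
  classical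
  funext y
  unfold psh
  rw [pair_single]
  unfold ind
  have h0 : pr L (0 : Zd d) = 0 := by funext i; simp [pr]
  rw [h0, zero_add]
  by_cases h : x = y
  · subst h
    simp
  · rw [Pi.single_eq_of_ne (fun hc => h hc.symm)]
    simp [h]

theorem psh_iter (c0 b lam : ℝ) (V : T d L → ℝ) (x : T d L) (n : ℕ) :
    psh x ((QZ c0 b lam (ext V x))^[n] (Pi.single 0 1)) =
      (QT c0 b lam V)^[n] (Pi.single x 1) := by
  induction n with
  | zero => exact psh_single x
  | succ n ih =>
    rw [Function.iterate_succ_apply', Function.iterate_succ_apply',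
      psh_QZ c0 b lam V x _ ((FS.single 0).iter c0 b lam (ext V x) n), ih]

theorem psh_pol (c0 b lam : ℝ) (V : T d L → ℝ) (x : T d L) (P : Polynomial ℝ) :
    psh x (pol P (QZ c0 b lam (ext V x)) (Pi.single 0 1)) =
      pol P (QT c0 b lam V) (Pi.single x 1) := by
  funext y
  have s : ∀ j : ℕ, Summable fun z => P.coeff j *
      ((QZ c0 b lam (ext V x))^[j] (Pi.single 0 1) z * ind x y z) :=
    fun j => (((FS.single 0).iter c0 b lam (ext V x) j).summable _).mul_left _
  unfold psh pol
  have e : ∀ z, (∑ j ∈ Finset.range (P.natDegree + 1), P.coeff j *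
      (QZ c0 b lam (ext V x))^[j] (Pi.single 0 1) z) * ind x y z =
      ∑ j ∈ Finset.range (P.natDegree + 1), P.coeff j *
        ((QZ c0 b lam (ext V x))^[j] (Pi.single 0 1) z * ind x y z) := by
    intro z
    rw [Finset.sum_mul]
    exact Finset.sum_congr rfl fun j _ => by ring
  rw [tsum_congr e, Summable.tsum_finsetSum fun j _ => s j]
  refine Finset.sum_congr rfl fun j _ => ?_
  rw [tsum_mul_left]
  congr 1
  exact congrFun (psh_iter c0 b lam V x j) y

theorem lift_box {h : ℕ} {z : Zd d} (hz : z ∈ box h (0 : Zd d)) (i : Fin d) : |z i| ≤ h := by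
  unfold box at hz
  rw [Finset.mem_image] at hz
  obtain ⟨t, -, rfl⟩ := hz
  rw [zero_add]
  exact lift_abs t i

theorem pr_inj {h : ℕ} (hL : 2 * h + 1 ≤ L) {z w : Zd d} (hz : z ∈ box h (0 : Zd d))
    (hw : w ∈ box h (0 : Zd d)) (e : pr L z = pr L w) : z = w := by
  funext i
  have h1 := lift_box hz i
  have h2 := lift_box hw i
  have h3 : ((z i : ℤ) : ZMod L) = ((w i : ℤ) : ZMod L) := congrFun e i
  rw [ZMod.intCast_eq_intCast_iff_dvd_sub] at h3
  rw [abs_le] at h1 h2
  obtain ⟨k, hk⟩ := h3
  have hLi : (2 * (h : ℤ) + 1) ≤ (L : ℤ) := by exact_mod_cast hL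
  have h5 : |w i - z i| < (L : ℤ) := by
    rw [abs_lt]
    constructor <;> linarith [h1.1, h1.2, h2.1, h2.2]
  have h6 : w i - z i = 0 := by
    apply Int.eq_zero_of_abs_lt_dvd ?_ h5
    exact ⟨k, hk⟩
  linarith

/-- norms of polynomials -/
theorem nrm_eq {h : ℕ} (hL : 2 * h + 1 ≤ L) (c0 b lam : ℝ) (V : T d L → ℝ) (x : T d L)
    (P : Polynomial ℝ) (hP : P.natDegree ≤ h) :
    ∑ y, (pol P (QT c0 b lam V) (Pi.single x 1) y) ^ 2 =
      ∑ z ∈ box h (0 : Zd d), (pol P (QZ c0 b lam (ext V x)) (Pi.single 0 1) z) ^ 2 := by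
  classical
  obtain ⟨f, hf⟩ : ∃ f : Zd d → ℝ, f = pol P (QZ c0 b lam (ext V x)) (Pi.single 0 1) := ⟨_, rfl⟩
  have hf0 : ∀ z, z ∉ box h (0 : Zd d) → f z = 0 := by
    intro z hz
    rw [hf]
    exact (Pool.Agent.K3h4.AN.Dl.pol_box h c0 b lam (ext V x) 0 P hP).1 z hz
  rw [← hf, ← psh_pol, ← hf]
  have e1 : ∀ y, psh x f y = ∑ z ∈ box h (0 : Zd d), f z * ind x y z := by
    intro y
    unfold psh
    exact tsum_eq_sum fun z hz => by rw [hf0 z hz, zero_mul]
  have e2 : ∀ y, (psh x f y) ^ 2 = ∑ z ∈ box h (0 : Zd d), f z ^ 2 * ind x y z := by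
    intro y
    rw [e1, sq, Finset.sum_mul_sum]
    refine Finset.sum_congr rfl fun z hz => ?_
    rw [Finset.sum_eq_single z]
    · unfold ind
      split_ifs <;> ring
    · intro w hw hne
      unfold ind
      by_cases h1 : pr L z + x = y
      · by_cases h2 : pr L w + x = y
        · exact absurd (pr_inj hL hw hz (add_right_cancel (h2.trans h1.symm))) hne
        · simp [h2]
      · simp [h1]
    · intro hc; exact absurd hz hc
  rw [Finset.sum_congr rfl fun y _ => e2 y, Finset.sum_comm]
  refine Finset.sum_congr rfl fun z _ => ?_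
  rw [← Finset.mul_sum]
  have e3 : ∑ y, ind x y z = 1 := by
    rw [Finset.sum_eq_single (pr L z + x)]
    · unfold ind; simp
    · intro y _ hy
      unfold ind
      rw [if_neg (fun hc => hy hc.symm)]
    · intro hc; exact absurd (Finset.mem_univ _) hc
  rw [e3, mul_one]

end Pool.Agent.H69.DS.Per
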