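import Pool.Graph.R_seed8.Results.MP_1906c1_mp.ScaleAtEdge
import Pool.Graph.R_pool_sql_team_seeded_5cf16337.K3h4.DS.Ex
import Pool.Agent.H69.DS.Per

/-! Eigenbasis of the operator on a torus and the counting function of the eigenvalues. -/

set_option autoImplicit false
set_option linter.unusedSectionVars false

open scoped BigOperators

namespace Pool.Agent.H69.DS.Eig

open Pool.Agent.H4R2.AE (Hop)
open Pool.Agent.K3h4.AN.Dl (pol QL ql_symm)
open Pool.Agent.K3h4.DS.Ex (ql_eq)
open Pool.Agent.Results.MP_1906c1_mp.ScaleAtEdge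

variable {d L : ℕ} [NeZero L]

/-- eigenbasis of `-Δ + σ V`, and the counting function of `Δ - σ V` -/
theorem eigd (σ : ℝ) (V : Pool.Agent.H4R2.AE.T d L → ℝ) :
    ∃ (n : ℕ) (t : Fin n → ℝ) (b : Fin n → Pool.Agent.H4R2.AE.T d L → ℝ),
      (∀ i x, QL 1 (-1) σ V (b i) x = t i * b i x) ∧
      (∀ f g : Pool.Agent.H4R2.AE.T d L → ℝ,
        ∑ x, f x * g x = ∑ i, (∑ x, b i x * f x) * (∑ x, b i x * g x)) ∧
      (∀ i, ∑ x, b i x ^ 2 = 1) ∧
      ∀ a : ℝ, numGE σ (fun x => -V x) (2 * d - a) =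
        (Finset.univ.filter fun i => t i ≤ a).card := by
  classical
  have hA := MT_isHermitian (d := d) (L := L) σ (fun x => -V x)
  obtain ⟨e⟩ : Nonempty (T d L ≃ Fin (Fintype.card (T d L))) := ⟨Fintype.equivFin _⟩
  have hin : ∀ (u v : EuclideanSpace ℝ (T d L)), inner ℝ u v = ∑ x, u x * v x := by
    intro u v
    rw [PiLp.inner_apply]
    refine Finset.sum_congr rfl fun x _ => ?_
    simp
    rw [mul_comm]
  refine ⟨Fintype.card (T d L), fun i => 2 * d - hA.eigenvalues (e.symm i),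
    fun i x => hA.eigenvectorBasis (e.symm i) x, fun i x => ?_, fun f g => ?_, fun i => ?_,
    fun a => ?_⟩
  · have h1 := congrFun (hA.mulVec_eigenvectorBasis (e.symm i)) x
    rw [MT_mulVec, HT_eq] at h1
    simp only [neg_neg, Pi.smul_apply, smul_eq_mul] at h1
    rw [ql_eq]
    linarith
  · obtain ⟨u, hu⟩ : ∃ u : EuclideanSpace ℝ (T d L), u = WithLp.toLp 2 f := ⟨_, rfl⟩
    obtain ⟨v, hv⟩ : ∃ v : EuclideanSpace ℝ (T d L), v = WithLp.toLp 2 g := ⟨_, rfl⟩
    have hux : ∀ x, u x = f x := fun x => by rw [hu]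
    have hvx : ∀ x, v x = g x := fun x => by rw [hv]
    have h1 := hA.eigenvectorBasis.sum_inner_mul_inner u v
    rw [hin u v] at h1
    simp only [hin, hux, hvx] at h1
    rw [← h1]
    rw [← Equiv.sum_comp e.symm]
    refine Finset.sum_congr rfl fun i _ => ?_
    congr 1
    exact Finset.sum_congr rfl fun x _ => mul_comm _ _
  · have h1 := hin (hA.eigenvectorBasis (e.symm i)) (hA.eigenvectorBasis (e.symm i))
    rw [real_inner_self_eq_norm_sq, (hA.eigenvectorBasis).norm_eq_one] at h1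
    rw [show ∑ x, (hA.eigenvectorBasis (e.symm i)) x ^ 2 =
      ∑ x, (hA.eigenvectorBasis (e.symm i)) x * (hA.eigenvectorBasis (e.symm i)) x from
      Finset.sum_congr rfl fun x _ => pow_two _, ← h1]
    norm_num
  · unfold numGE
    rw [← Finset.card_map e.toEmbedding]
    congr 1
    ext i
    simp only [Finset.mem_map, Finset.mem_filter, Finset.mem_univ, true_and, Equiv.coe_toEmbedding]
    constructor
    · rintro ⟨j, hj, rfl⟩
      rw [Equiv.symm_apply_apply]
      linarith
    · intro hi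
      exact ⟨e.symm i, by linarith, e.apply_symm_apply i⟩

end Pool.Agent.H69.DS.Eig
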