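import Pool.Agent.H69.DS.Mul

/-! The number of eigenvalues is a measurable function of the potential. -/

set_option autoImplicit false
set_option linter.unusedSectionVars false

open scoped BigOperators
open MeasureTheory Topology

namespace Pool.Agent.H69.DS.Ms

open Pool.Agent.H4R2
open Pool.Agent.H4R2.AE (Hop)
open Pool.Agent.K3h4.AN.Dl (QL ql_symm)
open Pool.Agent.K3h4.DS.Ex (ql_eq)
open Pool.Agent.K3h4.DS
open Pool.Agent.H69.DS.Flt (EB hopE)
open Pool.Agent.H69.DS.Mul
open Pool.Agent.Results.MP_1906c1_mp.ScaleAtEdge (numGE)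

variable {d L : ℕ} [NeZero L]

/-- orthonormal systems -/
def ON (d L : ℕ) [NeZero L] (k : ℕ) : Set (Fin k → AE.T d L → ℝ) :=
  {u | ∀ i j, ∑ x, u i x * u j x = if i = j then 1 else 0}

theorem on_closed (k : ℕ) : IsClosed (ON d L k) := by
  unfold ON
  simp only [Set.ofPred_forall]
  refine isClosed_iInter fun i => isClosed_iInter fun j => isClosed_eq ?_ continuous_const
  fun_prop

theorem on_compact (k : ℕ) : IsCompact (ON d L k) := by
  refine Metric.isCompact_of_isClosed_isBounded (on_closed k) ?_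
  refine (Metric.isBounded_closedBall (x := (0 : Fin k → AE.T d L → ℝ)) (r := 1)).subset ?_
  intro u hu
  rw [mem_closedBall_zero_iff, pi_norm_le_iff_of_nonneg zero_le_one]
  intro i
  rw [pi_norm_le_iff_of_nonneg zero_le_one]
  intro x
  rw [Real.norm_eq_abs]
  have h1 := hu i i
  rw [if_pos rfl] at h1
  have h2 : u i x * u i x ≤ ∑ x, u i x * u i x :=
    Finset.single_le_sum (f := fun x => u i x * u i x) (fun y _ => mul_self_nonneg _)
      (Finset.mem_univ x)
  rw [h1] at h2
  rw [abs_le]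
  constructor <;> nlinarith

/-- the energy is at most `a` on the span of the system -/
def Low (lam a : ℝ) (k : ℕ) (V : AE.T d L → ℝ) (u : Fin k → AE.T d L → ℝ) : Prop :=
  ∀ c : Fin k → ℝ, ∑ x, (∑ i, c i * u i x) * Hop lam V (fun y => ∑ i, c i * u i y) x ≤
    a * ∑ x, (∑ i, c i * u i x) ^ 2

theorem low_closed (lam a : ℝ) (k : ℕ) :
    IsClosed {p : (AE.T d L → ℝ) × (Fin k → AE.T d L → ℝ) | Low lam a k p.1 p.2} := by
  unfold Low
  simp only [Set.ofPred_forall]
  refine isClosed_iInter fun c => isClosed_le ?_ ?_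
  · unfold Hop
    fun_prop
  · fun_prop

theorem orth {lam : ℝ} {V : AE.T d L → ℝ} {n : ℕ} {t : Fin n → ℝ} {b : Fin n → AE.T d L → ℝ}
    (h : EB lam V n t b) (i j : Fin n) : ∑ x, b i x * b j x = if i = j then 1 else 0 := by
  by_cases hij : i = j
  · subst hij
    rw [if_pos rfl, ← h.2.2 i]
    exact Finset.sum_congr rfl fun x _ => (pow_two _).symm
  · rw [if_neg hij]
    have h1 := h.2.1 (b j) (b j)
    have h2 : ∑ x, b j x * b j x = 1 := by
      rw [← h.2.2 j]
      exact Finset.sum_congr rfl fun x _ => (pow_two _).symm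
    rw [← Finset.add_sum_erase Finset.univ _ (Finset.mem_univ j), h2] at h1
    have h3 : ∑ i ∈ Finset.univ.erase j, (∑ x, b i x * b j x) * (∑ x, b i x * b j x) = 0 := by
      linarith
    rw [Finset.sum_eq_zero_iff_of_nonneg fun i _ => mul_self_nonneg _] at h3
    exact mul_self_eq_zero.1 (h3 i (Finset.mem_erase.2 ⟨hij, Finset.mem_univ i⟩))

theorem hop_comb (lam : ℝ) (V : AE.T d L → ℝ) {k : ℕ} (c : Fin k → ℝ)
    (u : Fin k → AE.T d L → ℝ) (x : AE.T d L) :
    Hop lam V (fun y => ∑ i, c i * u i y) x = ∑ i, c i * Hop lam V (u i) x := by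
  have h1 : ∀ f, Hop lam V f = QL 1 (-1) lam V f := fun f => (ql_eq lam V f).symm
  rw [h1]
  have h2 : (fun y => ∑ i, c i * u i y) = ∑ i, c i • u i := by
    funext y
    rw [Finset.sum_apply]
    rfl
  rw [h2, map_sum, Finset.sum_apply]
  refine Finset.sum_congr rfl fun i _ => ?_
  rw [map_smul, h1]
  rfl

theorem norm_comb {k : ℕ} (c : Fin k → ℝ) (u : Fin k → AE.T d L → ℝ) (hu : u ∈ ON d L k) :
    ∑ x, (∑ i, c i * u i x) ^ 2 = ∑ i, c i ^ 2 := by
  have e1 : ∀ x, (∑ i, c i * u i x) ^ 2 = ∑ i, ∑ j, c i * c j * (u i x * u j x) := by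
    intro x
    rw [sq, Finset.sum_mul_sum]
    refine Finset.sum_congr rfl fun i _ => Finset.sum_congr rfl fun j _ => by ring
  rw [Finset.sum_congr rfl fun x _ => e1 x, Finset.sum_comm]
  refine Finset.sum_congr rfl fun i _ => ?_
  rw [Finset.sum_comm, Finset.sum_eq_single i]
  · rw [← Finset.mul_sum, hu i i, if_pos rfl]; ring
  · intro j _ hj
    rw [← Finset.mul_sum, hu i j, if_neg (fun h => hj h.symm), mul_zero]
  · intro h; exact absurd (Finset.mem_univ i) h

/-- min-max principle -/
theorem minmax (lam a : ℝ) (V : AE.T d L → ℝ) (k : ℕ) :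
    k ≤ cnt lam V a ↔ ∃ u ∈ ON d L k, Low lam a k V u := by
  classical
  obtain ⟨n, t, b, hb, hc⟩ := cnt_eq (d := d) lam V
  rw [hc a]
  constructor
  · intro hk
    obtain ⟨S, hS1, hS2⟩ := Finset.exists_subset_card_eq hk
    obtain ⟨e⟩ : Nonempty (Fin k ≃ S) := ⟨(Finset.equivFinOfCardEq hS2).symm⟩
    have hinj : ∀ i j : Fin k, ((e i : Fin n) = (e j : Fin n)) ↔ i = j := by
      intro i j
      rw [← Subtype.ext_iff, e.injective.eq_iff]
    have hON : (fun i : Fin k => b (e i)) ∈ ON d L k := by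
      intro i j
      rw [orth hb]
      simp only [hinj]
    refine ⟨fun i => b (e i), hON, fun c => ?_⟩
    rw [norm_comb c _ hON]
    have e1 : ∀ x, Hop lam V (fun y => ∑ i, c i * b (e i) y) x =
        ∑ i, (c i * t (e i)) * b (e i) x := by
      intro x
      rw [hop_comb lam V c (fun i => b (e i))]
      refine Finset.sum_congr rfl fun i _ => ?_
      rw [hopE hb]; ring
    have e2 : ∀ x, (∑ i, c i * b (e i) x) * Hop lam V (fun y => ∑ i, c i * b (e i) y) x =
        ∑ i, ∑ j, c i * (c j * t (e j)) * (b (e i) x * b (e j) x) := by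
      intro x
      rw [e1, Finset.sum_mul_sum]
      refine Finset.sum_congr rfl fun i _ => Finset.sum_congr rfl fun j _ => by ring
    rw [Finset.sum_congr rfl fun x _ => e2 x, Finset.sum_comm, Finset.mul_sum]
    refine Finset.sum_le_sum fun i _ => ?_
    rw [Finset.sum_comm, Finset.sum_eq_single i]
    · rw [← Finset.mul_sum]
      have h1 := hON i i
      rw [if_pos rfl] at h1
      have h2 : t (e i) ≤ a := (Finset.mem_filter.1 (hS1 (e i).2)).2
      have h3 : ∑ x, b (e i) x * b (e i) x = 1 := h1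
      rw [h3]
      nlinarith [sq_nonneg (c i)]
    · intro j _ hj
      rw [← Finset.mul_sum]
      have h1 := hON i j
      rw [if_neg (fun h => hj h.symm)] at h1
      have h3 : ∑ x, b (e i) x * b (e j) x = 0 := h1
      rw [h3, mul_zero]
    · intro h; exact absurd (Finset.mem_univ i) h
  · rintro ⟨u, hu, hlow⟩
    by_contra hcon
    push Not at hcon
    obtain ⟨Φ, hΦ⟩ : ∃ Φ : (Fin k → ℝ) →ₗ[ℝ] ({i // t i ≤ a} → ℝ),
        ∀ c i, Φ c i = ∑ j, c j * ∑ x, b i x * u j x := by
      refine ⟨{ toFun := fun c i => (∑ j, c j * ∑ x, b i x * u j x)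
                map_add' := ?_
                map_smul' := ?_ }, fun c i => rfl⟩
      · intro c c'
        funext i
        simp only [Pi.add_apply, add_mul, Finset.sum_add_distrib]
      · intro r c
        funext i
        simp only [Pi.smul_apply, smul_eq_mul, RingHom.id_apply, Finset.mul_sum, mul_assoc]
    have hker : LinearMap.ker Φ ≠ ⊥ := by
      apply LinearMap.ker_ne_bot_of_finrank_lt
      rw [Module.finrank_fintype_fun_eq_card, Module.finrank_fintype_fun_eq_card,
        Fintype.card_fin, Fintype.card_subtype]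
      exact hcon
    obtain ⟨c, hc1, hc0⟩ := (Submodule.ne_bot_iff _).1 hker
    have hc' : Φ c = 0 := hc1
    obtain ⟨v, hv⟩ : ∃ v : AE.T d L → ℝ, v = fun x => ∑ i, c i * u i x := ⟨_, rfl⟩
    have hbv : ∀ i, t i ≤ a → ∑ x, b i x * v x = 0 := by
      intro i hi
      have h4 := congrFun hc' ⟨i, hi⟩
      rw [hΦ] at h4
      rw [hv]
      simp only [Finset.mul_sum]
      rw [Finset.sum_comm]
      simp only [Finset.mul_sum] at h4
      rw [← show (0 : {i // t i ≤ a} → ℝ) ⟨i, hi⟩ = 0 from rfl, ← h4]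
      refine Finset.sum_congr rfl fun c _ => Finset.sum_congr rfl fun x _ => by ring
    have h1 := hlow c
    have h2 := norm_comb c u hu
    have hpos : 0 < ∑ i, c i ^ 2 := by
      obtain ⟨i, hi⟩ : ∃ i, c i ≠ 0 := by
        by_contra h
        push Not at h
        exact hc0 (funext h)
      exact Finset.sum_pos' (fun i _ => sq_nonneg _) ⟨i, Finset.mem_univ i, by positivity⟩
    have hvx : ∀ x, (∑ i, c i * u i x) = v x := fun x => by rw [hv]
    simp only [hvx] at h1 h2
    have h3 := Fd.mom (A := QL 1 (-1) lam V) (ql_symm 1 (-1) lam V) hb.1 hb.2.1 v 1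
    simp only [Function.iterate_one, pow_one, ql_eq] at h3
    have h4 : ∑ x, v x ^ 2 = ∑ i, (∑ x, b i x * v x) ^ 2 := by
      rw [show ∑ x, v x ^ 2 = ∑ x, v x * v x from Finset.sum_congr rfl fun x _ => pow_two _,
        hb.2.1]
      exact Finset.sum_congr rfl fun i _ => (pow_two _).symm
    have h5 : ∃ i, ∑ x, b i x * v x ≠ 0 := by
      by_contra h
      push Not at h
      rw [h4] at h2
      simp only [h] at h2
      simp at h2
      linarith
    obtain ⟨i0, hi0⟩ := h5
    have h6 : a * ∑ x, v x ^ 2 < ∑ x, v x * Hop lam V v x := by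
      rw [h3, h4, Finset.mul_sum]
      refine Finset.sum_lt_sum (fun i _ => ?_) ⟨i0, Finset.mem_univ _, ?_⟩
      · by_cases hi : t i ≤ a
        · rw [hbv i hi]; simp
        · exact mul_le_mul_of_nonneg_right (not_le.1 hi).le (sq_nonneg _)
      · have hi : ¬ t i0 ≤ a := fun hi => hi0 (hbv i0 hi)
        exact mul_lt_mul_of_pos_right (not_le.1 hi) (by positivity)
    have h7 : Hop lam V (fun y => v y) = Hop lam V v := rfl
    rw [h7] at h1
    linarith

theorem cnt_closed (lam a : ℝ) (k : ℕ) : IsClosed {V : AE.T d L → ℝ | k ≤ cnt lam V a} := by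
  have hK : CompactSpace (ON d L k) := isCompact_iff_compactSpace.1 (on_compact k)
  have h1 : IsClosed {p : (AE.T d L → ℝ) × ON d L k | Low lam a k p.1 p.2} :=
    (low_closed (d := d) (L := L) lam a k).preimage
      (continuous_fst.prodMk (continuous_subtype_val.comp continuous_snd))
  have h2 := isClosedMap_fst_of_compactSpace _ h1
  have e : Prod.fst '' {p : (AE.T d L → ℝ) × ON d L k | Low lam a k p.1 p.2} =
      {V : AE.T d L → ℝ | k ≤ cnt lam V a} := by
    ext V
    simp only [Set.mem_image, Set.mem_ofPred_eq, minmax]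
    constructor
    · rintro ⟨p, hp, rfl⟩
      exact ⟨p.2, p.2.2, hp⟩
    · rintro ⟨u, hu, hl⟩
      exact ⟨(V, ⟨u, hu⟩), hl, rfl⟩
  rw [← e]
  exact h2

theorem cnt_meas (lam a : ℝ) : Measurable fun V : AE.T d L → ℝ => cnt lam V a :=
  measurable_of_Ici fun k => (cnt_closed lam a k).measurableSet

theorem numGE_eq (σ t : ℝ) (ξ : AE.T d L → ℝ) :
    numGE σ ξ t = cnt σ (fun x => -ξ x) (2 * d - t) := by
  unfold cnt
  have h1 : (fun x => -(fun x => -ξ x) x) = ξ := by
    funext x
    exact neg_neg _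
  rw [h1]
  congr 1
  ring

/-- the number of eigenvalues is measurable -/
theorem numGE_meas (σ t : ℝ) : Measurable fun ξ : AE.T d L → ℝ => numGE σ ξ t := by
  have h1 : (fun ξ : AE.T d L → ℝ => numGE σ ξ t) =
      (fun V => cnt σ V (2 * d - t)) ∘ fun ξ x => -ξ x := by
    funext ξ
    exact numGE_eq σ t ξ
  rw [h1]
  exact (cnt_meas σ _).comp (by fun_prop)

end Pool.Agent.H69.DS.Ms
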