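import Pool.Graph.R_pool_sql_team_seeded_5cf16337.K3h4.DS.Ti

/-! Probability of a shifted event for independent standard Gaussian variables. -/

set_option autoImplicit false
set_option linter.unusedSectionVars false

open scoped BigOperators ENNReal NNReal
open MeasureTheory Filter Topology ProbabilityTheory

namespace Pool.Agent.H69.DS.Gs

open Pool.Agent.K3h4.DS.Ti (lpi pi_dens)

/-- comparison of a set under a tilted and the original product measures -/
theorem cs {ι : Type*} [Fintype ι] (μ : Measure ℝ) [IsProbabilityMeasure μ] (g : ℝ → ℝ≥0∞)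
    (hg : Measurable g) (h1 : ∫⁻ v, g v ∂μ = 1) (B : ℝ≥0∞) (h2 : ∫⁻ v, g v ^ 2 ∂μ ≤ B)
    (A : Set (ι → ℝ)) (hA : MeasurableSet A) :
    ((Measure.pi fun _ : ι => μ.withDensity g) A) ^ 2 ≤
      B ^ (Fintype.card ι) * (Measure.pi fun _ : ι => μ) A := by
  rw [pi_dens μ _ hg h1, withDensity_apply _ hA, ← lintegral_indicator hA]
  obtain ⟨P, hP⟩ : ∃ P : Measure (ι → ℝ), P = Measure.pi fun _ : ι => μ := ⟨_, rfl⟩
  rw [← hP]
  have hm : Measurable fun V : ι → ℝ => ∏ i, g (V i) :=
    Finset.measurable_prod _ fun i _ => hg.comp (measurable_pi_apply i)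
  have e1 : ∀ V : ι → ℝ, A.indicator (fun V => ∏ i, g (V i)) V =
      ((fun V : ι → ℝ => ∏ i, g (V i)) * A.indicator (fun _ => (1 : ℝ≥0∞))) V := by
    intro V
    by_cases hV : V ∈ A
    · rw [Set.indicator_of_mem hV, Pi.mul_apply, Set.indicator_of_mem hV, mul_one]
    · rw [Set.indicator_of_notMem hV, Pi.mul_apply, Set.indicator_of_notMem hV, mul_zero]
  simp only [e1]
  have h2' := ENNReal.lintegral_mul_le_Lp_mul_Lq P (p := 2) (q := 2)
    ⟨by norm_num, by norm_num, by norm_num⟩ hm.aemeasurable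
    ((measurable_const (a := (1 : ℝ≥0∞))).indicator hA).aemeasurable
  have h3 := pow_le_pow_left' h2' 2
  refine h3.trans ?_
  rw [mul_pow]
  have e2 : ∀ x : ℝ≥0∞, (x ^ ((1 : ℝ) / 2)) ^ 2 = x := by
    intro x
    rw [← ENNReal.rpow_natCast, ← ENNReal.rpow_mul]
    norm_num
  rw [e2, e2]
  have e3 : ∫⁻ V, A.indicator (fun _ => (1 : ℝ≥0∞)) V ^ (2 : ℝ) ∂P = P A := by
    have : ∀ V, A.indicator (fun _ => (1 : ℝ≥0∞)) V ^ (2 : ℝ) = A.indicator (fun _ => 1) V := by
      intro V
      by_cases hV : V ∈ A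
      · rw [Set.indicator_of_mem hV]; simp
      · rw [Set.indicator_of_notMem hV]; simp
    simp only [this]
    rw [lintegral_indicator hA]
    simp
  have e4 : ∫⁻ V : ι → ℝ, (∏ i, g (V i)) ^ (2 : ℝ) ∂P = (∫⁻ v, g v ^ 2 ∂μ) ^ Fintype.card ι := by
    have : ∀ V : ι → ℝ, (∏ i, g (V i)) ^ (2 : ℝ) = ∏ i, g (V i) ^ 2 := by
      intro V
      rw [show (2 : ℝ) = ((2 : ℕ) : ℝ) by norm_num, ENNReal.rpow_natCast, Finset.prod_pow]
    simp only [this]
    rw [hP, lpi μ (fun _ v => g v ^ 2) fun _ => hg.pow_const 2, Finset.prod_const,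
      Finset.card_univ]
  rw [e3, e4]
  gcongr

/-- density of the standard law with respect to the shifted law -/
noncomputable def dg (m : ℝ) (v : ℝ) : ℝ≥0∞ := ENNReal.ofReal (Real.exp (m ^ 2 / 2 - m * v))

theorem dg_meas (m : ℝ) : Measurable (dg m) := by
  unfold dg
  fun_prop

theorem pdf_mul (m v : ℝ) : gaussianPDF m 1 v * dg m v = gaussianPDF 0 1 v := by
  unfold gaussianPDF dg gaussianPDFReal
  rw [← ENNReal.ofReal_mul (by positivity), mul_assoc, ← Real.exp_add]
  congr 3
  simp only [NNReal.coe_one]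
  ring

theorem dg_law (m : ℝ) : (gaussianReal m 1).withDensity (dg m) = gaussianReal 0 1 := by
  rw [gaussianReal_of_var_ne_zero m one_ne_zero, gaussianReal_of_var_ne_zero 0 one_ne_zero,
    ← withDensity_mul _ (measurable_gaussianPDF m 1) (dg_meas m)]
  congr 1
  funext v
  exact pdf_mul m v

theorem dg_int (m : ℝ) : ∫⁻ v, dg m v ∂(gaussianReal m 1) = 1 := by
  have h := congrArg (fun ν : Measure ℝ => ν Set.univ) (dg_law m)
  simp only [withDensity_apply _ MeasurableSet.univ, Measure.restrict_univ, measure_univ] at h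
  exact h

theorem pdf_mul2 (m v : ℝ) : gaussianPDF m 1 v * dg m v ^ 2 =
    ENNReal.ofReal (Real.exp (m ^ 2)) * gaussianPDF (-m) 1 v := by
  unfold gaussianPDF dg gaussianPDFReal
  rw [← ENNReal.ofReal_pow (by positivity), ← ENNReal.ofReal_mul (by positivity),
    ← ENNReal.ofReal_mul (by positivity), ← Real.exp_nat_mul]
  congr 1
  have e : ∀ c a b : ℝ, Real.exp a * (c * Real.exp b) = c * Real.exp (a + b) := by
    intro c a b
    rw [Real.exp_add]; ring
  rw [e, mul_assoc, ← Real.exp_add]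
  congr 2
  simp only [NNReal.coe_one]
  push_cast
  ring

theorem dg_sq (m : ℝ) : ∫⁻ v, dg m v ^ 2 ∂(gaussianReal m 1) ≤ ENNReal.ofReal (Real.exp (m ^ 2)) := by
  rw [gaussianReal_of_var_ne_zero m one_ne_zero,
    lintegral_withDensity_eq_lintegral_mul _ (measurable_gaussianPDF m 1) ((dg_meas m).pow_const 2)]
  have e : ∀ v, (gaussianPDF m 1 * fun v => dg m v ^ 2) v =
      ENNReal.ofReal (Real.exp (m ^ 2)) * gaussianPDF (-m) 1 v := fun v => pdf_mul2 m v
  simp only [e]
  rw [lintegral_const_mul _ (measurable_gaussianPDF (-m) 1),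
    lintegral_gaussianPDF_eq_one (-m) one_ne_zero, mul_one]

/-- **probability of a shifted event** -/
theorem shiftG {ι : Type*} [Fintype ι] (m : ℝ) (G : Set (ι → ℝ)) (hG : MeasurableSet G) :
    (Measure.pi fun _ : ι => gaussianReal 0 1).real G ^ 2 *
      Real.exp (-(m ^ 2 * Fintype.card ι)) ≤
      (Measure.pi fun _ : ι => gaussianReal 0 1).real {V | (fun x => V x + m) ∈ G} := by
  have hmap : (Measure.pi fun _ : ι => gaussianReal 0 1).map (fun V x => V x + m) =
      Measure.pi fun _ : ι => gaussianReal m 1 := by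
    have h1 := Measure.pi_map_pi (μ := fun _ : ι => gaussianReal 0 1)
      (f := fun _ (v : ℝ) => v + m) (fun _ => (measurable_id.add_const m).aemeasurable)
    rw [h1]
    congr 1
    funext i
    rw [gaussianReal_map_add_const, zero_add]
  have hm : Measurable fun (V : ι → ℝ) x => V x + m := by fun_prop
  have h2 : (Measure.pi fun _ : ι => gaussianReal 0 1).real {V | (fun x => V x + m) ∈ G} =
      (Measure.pi fun _ : ι => gaussianReal m 1).real G := by
    rw [← hmap, map_measureReal_apply hm hG]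
    rfl
  rw [h2]
  have h3 := cs (ι := ι) (gaussianReal m 1) (dg m) (dg_meas m) (dg_int m)
    (ENNReal.ofReal (Real.exp (m ^ 2))) (dg_sq m) G hG
  rw [dg_law] at h3
  have h4 := ENNReal.toReal_mono (ENNReal.mul_ne_top (ENNReal.pow_ne_top ENNReal.ofReal_ne_top)
    (measure_ne_top _ _)) h3
  rw [ENNReal.toReal_pow, ENNReal.toReal_mul, ENNReal.toReal_pow,
    ENNReal.toReal_ofReal (Real.exp_pos _).le] at h4
  have h5 : Real.exp (m ^ 2) ^ Fintype.card ι = Real.exp (m ^ 2 * Fintype.card ι) := by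
    rw [← Real.exp_nat_mul]
    congr 1
    ring
  rw [h5] at h4
  rw [Real.exp_neg, ← div_eq_mul_inv, div_le_iff₀ (Real.exp_pos _)]
  have h6 : (Measure.pi fun _ : ι => gaussianReal 0 1).real G ^ 2 ≤
      Real.exp (m ^ 2 * Fintype.card ι) * (Measure.pi fun _ : ι => gaussianReal m 1).real G := h4
  linarith

end Pool.Agent.H69.DS.Gs
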