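import Pool.Agent.H69.DS.Mul
import Pool.Agent.H69.DS.Gs
import Pool.Graph.R_pool_sql_team_seeded_5cf16337.K3h4.DS.Au

/-! Lower bounds for the expected number of eigenvalues: trial functions in disjoint boxes. -/

set_option autoImplicit false
set_option linter.unusedSectionVars false
set_option linter.unusedVariables false

open scoped BigOperators ENNReal
open MeasureTheory Filter Topology ProbabilityTheory

namespace Pool.Agent.H69.DS.Lb

open Pool.Agent.H4R2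
open Pool.Agent.H4R2.AE (Hop)
open Pool.Agent.H4R2.LO.El (io io_inj io_val tp tp_io tp_out tp_hop tp_sq Int' io_add io_sub map_pi)
open Pool.Agent.K3h4.AN.Dl (pol QL ql_symm)
open Pool.Agent.K3h4.DS.Ex (ql_eq)
open Pool.Agent.K3h4.DS.Lo (tp_ne hop_out hop_shift sum_shift)
open Pool.Agent.K3h4.DS
open Pool.Agent.K3h4.DS.As (Flats)
open Pool.Agent.K3h4.DS.Au (flat_odd)
open Pool.Agent.K3h4.DS.Ta (Tr tr_meas plain trial)
open Pool.Agent.H69.DS.Flt (EB)
open Pool.Agent.H69.DS.Mul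

/-- corners of the boxes -/
def sh (d n L q : ℕ) (c : Fin d → Fin q) : AE.T d L := fun i => ((n * (c i : ℕ) : ℕ) : ZMod L)

theorem em_inj (d n L q : ℕ) [NeZero n] [NeZero L] (hq : n * q ≤ L) (c c' : Fin d → Fin q)
    (x x' : AE.T d n) (h : io d n L x + sh d n L q c = io d n L x' + sh d n L q c') :
    c = c' ∧ x = x' := by
  have key : ∀ i, c i = c' i ∧ (x i).val = (x' i).val := by
    intro i
    have h1 := congrFun h i
    unfold io sh at h1
    simp only [Pi.add_apply] at h1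
    rw [← Nat.cast_add, ← Nat.cast_add] at h1
    have b1 := ZMod.val_lt (x i)
    have b2 := ZMod.val_lt (x' i)
    have l1 : (x i).val + n * (c i : ℕ) < L := by
      have := (c i).2
      calc (x i).val + n * (c i : ℕ) < n + n * (c i : ℕ) := by omega
        _ = n * ((c i : ℕ) + 1) := by ring
        _ ≤ n * q := Nat.mul_le_mul_left n this
        _ ≤ L := hq
    have l2 : (x' i).val + n * (c' i : ℕ) < L := by
      have := (c' i).2
      calc (x' i).val + n * (c' i : ℕ) < n + n * (c' i : ℕ) := by omega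
        _ = n * ((c' i : ℕ) + 1) := by ring
        _ ≤ n * q := Nat.mul_le_mul_left n this
        _ ≤ L := hq
    have h2 := congrArg ZMod.val h1
    rw [ZMod.val_natCast_of_lt l1, ZMod.val_natCast_of_lt l2] at h2
    have hn : 0 < n := Nat.pos_of_ne_zero (NeZero.ne n)
    have h3 : ((x i).val + n * (c i : ℕ)) / n = ((x' i).val + n * (c' i : ℕ)) / n := by rw [h2]
    rw [Nat.add_mul_div_left _ _ hn, Nat.add_mul_div_left _ _ hn, Nat.div_eq_of_lt b1,
      Nat.div_eq_of_lt b2, zero_add, zero_add] at h3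
    rw [h3] at h2
    exact ⟨Fin.ext h3, by omega⟩
  exact ⟨funext fun i => (key i).1, funext fun i => ZMod.val_injective n (key i).2⟩

section
variable {d L : ℕ} [NeZero L]

/-- the number of eigenvalues is at least the number of good boxes -/
theorem boxes {lam : ℝ} {V : AE.T d L → ℝ} {N : ℕ} {t : Fin N → ℝ} {b : Fin N → AE.T d L → ℝ}
    (hb : EB lam V N t b) (n q : ℕ) [NeZero n] (hq : n * q ≤ L) (hnL : n ≤ L) (E : ℝ)
    (C : Finset (Fin d → Fin q))
    (hC : ∀ c ∈ C, (fun x => V (io d n L x + sh d n L q c)) ∈ Tr d n lam E) :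
    C.card ≤ (Finset.univ.filter fun i => t i < E).card := by
  classical
  have hC' : ∀ c, ∃ f : AE.T d n → ℝ, c ∈ C → Int' f ∧
      ∑ x, f x * Hop lam (fun x => V (io d n L x + sh d n L q c)) f x < E * ∑ x, f x ^ 2 := by
    intro c
    by_cases hc : c ∈ C
    · obtain ⟨f, hf⟩ := hC c hc
      exact ⟨f, fun _ => hf⟩
    · exact ⟨0, fun h => absurd h hc⟩
  choose f hf using hC'
  refine Fd.mm (A := QL 1 (-1) lam V) (ql_symm 1 (-1) lam V) hb.1 hb.2.1 C
    (fun c y => tp L (f c) (y - sh d n L q c)) E (fun c hc => ?_) (fun c hc c' hc' hne y => ?_)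
    (fun c hc c' hc' hne y => ?_)
  · obtain ⟨h1, h2⟩ := hf c hc
    have e1 : ∑ y, tp L (f c) (y - sh d n L q c) ^ 2 = ∑ x, f c x ^ 2 := by
      rw [sum_shift (fun y => tp L (f c) y ^ 2) (sh d n L q c), tp_sq hnL]
    have e2 : ∑ y, tp L (f c) (y - sh d n L q c) *
        QL 1 (-1) lam V (fun y => tp L (f c) (y - sh d n L q c)) y =
        ∑ x, f c x * Hop lam (fun x => V (io d n L x + sh d n L q c)) (f c) x := by
      simp only [ql_eq, hop_shift lam V (tp L (f c)) (sh d n L q c)]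
      rw [sum_shift (fun y => tp L (f c) y *
        Hop lam (fun y => V (y + sh d n L q c)) (tp L (f c)) y) (sh d n L q c)]
      exact tp_hop hnL lam (fun y => V (y + sh d n L q c)) (f c) h1
    rw [e1, e2]
    exact h2
  · by_contra hcon
    obtain ⟨x, hx, -⟩ := tp_ne hnL (f c) _ (left_ne_zero_of_mul hcon)
    obtain ⟨x', hx', -⟩ := tp_ne hnL (f c') _ (right_ne_zero_of_mul hcon)
    have e1 : io d n L x + sh d n L q c = io d n L x' + sh d n L q c' := by
      rw [← hx, ← hx', sub_add_cancel, sub_add_cancel]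
    exact hne (em_inj d n L q hq c c' x x' e1).1
  · by_contra hcon
    obtain ⟨x, hx, -⟩ := tp_ne hnL (f c) _ (left_ne_zero_of_mul hcon)
    have h2 := right_ne_zero_of_mul hcon
    rw [ql_eq, hop_shift] at h2
    have h3 : y - sh d n L q c' ∈ Set.range (io d n L) := by
      by_contra h4
      exact h2 (hop_out hnL lam _ (f c') (hf c' hc').1 _ h4)
    obtain ⟨x', hx'⟩ := h3
    have e1 : io d n L x + sh d n L q c = io d n L x' + sh d n L q c' := by
      rw [← hx, hx', sub_add_cancel, sub_add_cancel]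
    exact hne (em_inj d n L q hq c c' x x' e1).1

theorem lower0 (μ : Measure ℝ) [IsProbabilityMeasure μ] (lam E : ℝ) (n q : ℕ) [NeZero n]
    (hq : n * q ≤ L) (hnL : n ≤ L) :
    (q : ℝ) ^ d * (Measure.pi fun _ : AE.T d n => μ).real (Tr d n lam E) / (L : ℝ) ^ d ≤
      dn L d μ lam E := by
  classical
  obtain ⟨P, hP⟩ : ∃ P : Measure (AE.T d L → ℝ), P = Measure.pi fun _ : AE.T d L => μ := ⟨_, rfl⟩
  have hPp : IsProbabilityMeasure P := by rw [hP]; infer_instance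
  obtain ⟨S, hS⟩ : ∃ S : (Fin d → Fin q) → Set (AE.T d L → ℝ), S = fun c =>
    {V | (fun x : AE.T d n => V (io d n L x + sh d n L q c)) ∈ Tr d n lam E} := ⟨_, rfl⟩
  have hmc : ∀ c : Fin d → Fin q, Measurable fun (V : AE.T d L → ℝ) (x : AE.T d n) =>
      V (io d n L x + sh d n L q c) :=
    fun c => measurable_pi_lambda _ fun x => measurable_pi_apply _
  have hSm : ∀ c, MeasurableSet (S c) := fun c => by
    rw [hS]
    exact (hmc c) (tr_meas lam E)
  have hlaw : ∀ c, P (S c) = (Measure.pi fun _ : AE.T d n => μ) (Tr d n lam E) := by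
    intro c
    have hinj : Function.Injective fun x : AE.T d n => io d n L x + sh d n L q c := by
      intro x x' hx
      exact (em_inj d n L q hq c c x x' hx).2
    have h1 := map_pi μ (fun x : AE.T d n => io d n L x + sh d n L q c) hinj
    rw [← h1, Measure.map_apply (hmc c) (tr_meas lam E), hP, hS]
    rfl
  have hpt : ∀ V, ∑ c, (S c).indicator (fun _ => (1 : ℝ≥0∞)) V ≤ (cnt lam V E : ℝ≥0∞) := by
    intro V
    obtain ⟨N, t, b, hb, hc⟩ := cnt_eq (d := d) lam V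
    have h1 := boxes hb n q hq hnL E (Finset.univ.filter fun c : Fin d → Fin q => V ∈ S c)
      (fun c hc => by
        have := (Finset.mem_filter.1 hc).2
        rw [hS] at this
        exact this)
    have h2 : (Finset.univ.filter fun i => t i < E).card ≤ cnt lam V E := by
      rw [hc]
      refine Finset.card_le_card fun i hi => ?_
      rw [Finset.mem_filter] at hi ⊢
      exact ⟨hi.1, hi.2.le⟩
    have h3 : ∑ c, (S c).indicator (fun _ => (1 : ℝ≥0∞)) V =
        ((Finset.univ.filter fun c : Fin d → Fin q => V ∈ S c).card : ℝ≥0∞) := by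
      rw [Finset.card_filter]
      push_cast
      refine Finset.sum_congr rfl fun c _ => ?_
      rw [Set.indicator_apply]
    rw [h3]
    exact_mod_cast h1.trans h2
  have hint : (q : ℝ≥0∞) ^ d * (Measure.pi fun _ : AE.T d n => μ) (Tr d n lam E) ≤
      ∫⁻ V, (cnt lam V E : ℝ≥0∞) ∂P := by
    refine le_trans (le_of_eq ?_) (lintegral_mono hpt)
    rw [lintegral_finsetSum _ fun c _ => measurable_const.indicator (hSm c)]
    have e : ∀ c, ∫⁻ V, (S c).indicator (fun _ => (1 : ℝ≥0∞)) V ∂P =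
        (Measure.pi fun _ : AE.T d n => μ) (Tr d n lam E) := by
      intro c
      rw [lintegral_indicator (hSm c), setLIntegral_const, one_mul, hlaw]
    rw [Finset.sum_congr rfl fun c _ => e c, Finset.sum_const, Finset.card_univ, nsmul_eq_mul]
    congr 1
    simp
  have hL := L_pos' (L := L)
  unfold dn
  refine div_le_div_of_nonneg_right ?_ (by positivity)
  have h4 := ENNReal.toReal_mono (by rw [hP]; exact lint_ne_top (d := d) (L := L) μ lam E) hint
  rw [ENNReal.toReal_mul, ENNReal.toReal_pow, hP, ENNReal.toReal_natCast] at h4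
  exact h4

/-- one box per cube of side `2 n` -/
theorem lower (μ : Measure ℝ) [IsProbabilityMeasure μ] (lam E : ℝ) (n : ℕ) [NeZero n]
    (hnL : n ≤ L) :
    (Measure.pi fun _ : AE.T d n => μ).real (Tr d n lam E) / (2 * (n : ℝ)) ^ d ≤
      dn L d μ lam E := by
  have hn : 0 < n := Nat.pos_of_ne_zero (NeZero.ne n)
  have hn0 : (0 : ℝ) < n := by exact_mod_cast hn
  have hL := L_pos' (L := L)
  obtain ⟨q, hq⟩ : ∃ q, q = L / n := ⟨_, rfl⟩
  have h1 : n * q ≤ L := by rw [hq]; exact Nat.mul_div_le L n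
  have h2 : 1 ≤ q := by rw [hq]; exact (Nat.one_le_div_iff hn).2 hnL
  have h3 : L < n * (q + 1) := by rw [hq]; exact Nat.lt_mul_div_succ L hn
  have h4 : (L : ℝ) ≤ (2 * n) * q := by
    have h5 : (L : ℝ) < n * (q + 1) := by exact_mod_cast h3
    have h6 : (1 : ℝ) ≤ q := by exact_mod_cast h2
    have h7 : (n : ℝ) * 1 ≤ n * q := by gcongr
    linarith
  refine le_trans ?_ (lower0 (d := d) μ lam E n q h1 hnL)
  rw [div_le_div_iff₀ (by positivity) (by positivity)]
  have h5 : (L : ℝ) ^ d ≤ (2 * n) ^ d * (q : ℝ) ^ d := by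
    rw [← mul_pow]
    exact pow_le_pow_left₀ hL.le h4 d
  have h6 : 0 ≤ (Measure.pi fun _ : AE.T d n => μ).real (Tr d n lam E) := measureReal_nonneg
  calc (Measure.pi fun _ : AE.T d n => μ).real (Tr d n lam E) * (L : ℝ) ^ d ≤
        (Measure.pi fun _ : AE.T d n => μ).real (Tr d n lam E) * ((2 * n) ^ d * (q : ℝ) ^ d) :=
        mul_le_mul_of_nonneg_left h5 h6
    _ = _ := by ring

end

/-- lower bound above the edge -/
theorem lowA (d p : ℕ) (hd : 1 ≤ d) (hp2 : p ≤ 2) (K : ℝ) (hK : 1 ≤ K) (η : ℝ) (hη : η ≤ 1) :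
    ∃ K5 : ℝ, 1 ≤ K5 ∧ ∀ (μ : Measure ℝ) [IsProbabilityMeasure μ],
    ∀ lam : ℝ, 0 < lam → lam ≤ 1 → ∀ Es : ℝ, Flats d p μ lam η Es K →
    ∀ (L : ℕ) [NeZero L], ∀ y : ℝ, 0 < y → y ≤ 1 → K5 * lam ^ 2 ≤ y ^ p → K5 ≤ y * L →
      y ^ d / K5 ≤ dn L d μ lam (Es + y ^ 2) := by
  obtain ⟨K4, hK4, H⟩ := flat_odd d p hd hp2 K hK
  refine ⟨2 * (2 * K4) ^ d + K4, by
    nlinarith [pow_pos (show 0 < 2 * K4 by linarith) d], ?_⟩
  intro μ _ lam hl hl1 Es hflat L _ y hy hy1 hyK hyL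
  have hK4d : 0 < (2 * K4) ^ d := by positivity
  have hl2 : 0 < lam ^ 2 := by positivity
  have hyK' : K4 * lam ^ 2 ≤ y ^ p := by
    refine le_trans ?_ hyK
    gcongr
    linarith
  obtain ⟨m, G, h1, h2, h3, h4, hG, hP, hfl⟩ := H η μ lam hl Es hflat y hy hy1 hyK'
  have hn0 : (0 : ℝ) < ((2 * m + 1 : ℕ) : ℝ) := by positivity
  have hdpos : (0 : ℝ) ≤ d := Nat.cast_nonneg d
  have hnL : 2 * m + 1 ≤ L := by
    have e : y * ((2 * m + 1 : ℕ) : ℝ) ≤ y * L := by linarith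
    exact_mod_cast le_of_mul_le_mul_left e hy
  have hlow := lower (d := d) (L := L) μ lam (Es + y ^ 2) (2 * m + 1) hnL
  refine le_trans ?_ hlow
  have hsub : G ⊆ Tr d (2 * m + 1) lam (Es + y ^ 2) := by
    intro V hV
    refine plain hd h1 lam (K / ((2 * m + 1 : ℕ) : ℝ) ^ 2) Es hl.le V
      (Pool.Agent.Y663.Mc.of_flat lam η _ Es hη V (hfl V hV)) _ ?_
    have e : K / ((2 * m + 1 : ℕ) : ℝ) ^ 2 + 1024 * (d : ℝ) / ((2 * m + 1 : ℕ) : ℝ) ^ 2 =
        (K + 1024 * d) / ((2 * m + 1 : ℕ) : ℝ) ^ 2 := by rw [add_div]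
    have := sq_pos_of_pos hy
    linarith
  have hPT : 7 / 8 ≤ (Measure.pi fun _ : AE.T d (2 * m + 1) => μ).real
      (Tr d (2 * m + 1) lam (Es + y ^ 2)) := hP.trans (measureReal_mono hsub)
  rw [div_le_div_iff₀ (by linarith) (by positivity)]
  calc y ^ d * (2 * ((2 * m + 1 : ℕ) : ℝ)) ^ d = (2 * (y * ((2 * m + 1 : ℕ) : ℝ))) ^ d := by
        rw [← mul_pow]; ring
    _ ≤ (2 * K4) ^ d := pow_le_pow_left₀ (by positivity) (by linarith) d
    _ ≤ 7 / 8 * (2 * (2 * K4) ^ d + K4) := by linarith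
    _ ≤ _ := by gcongr

/-- lower bound below the edge, Gaussian disorder -/
theorem lowB (d p : ℕ) (hd : 1 ≤ d) (hdp : d + p = 4) (hp2 : p ≤ 2) (K : ℝ) (hK : 1 ≤ K) (η : ℝ)
    (hη : η ≤ 1) :
    ∃ K5 : ℝ, 1 ≤ K5 ∧ 
    ∀ lam : ℝ, 0 < lam → lam ≤ 1 → ∀ Es : ℝ, Flats d p (gaussianReal 0 1) lam η Es K →
    ∀ (L : ℕ) [NeZero L], ∀ y : ℝ, 0 < y → y ≤ 1 → K5 * lam ^ 2 ≤ y ^ p → K5 ≤ y * L →
      y ^ d * Real.exp (-(K5 * (y ^ p / lam ^ 2))) / K5 ≤
        dn L d (gaussianReal 0 1) lam (Es - y ^ 2) := by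
  obtain ⟨K4, hK4, H⟩ := flat_odd d p hd hp2 K hK
  have hK0 : 0 < K := by linarith
  have hK4d : 0 < (2 * K4) ^ d := by positivity
  have hK4e : 0 < K4 ^ d := by positivity
  obtain ⟨K5, hK5⟩ : ∃ z : ℝ, z = 2 * (2 * K4) ^ d + K4 + 144 * K4 ^ d := ⟨_, rfl⟩
  have b1 : 2 * (2 * K4) ^ d ≤ K5 := by rw [hK5]; linarith
  have b2 : K4 ≤ K5 := by rw [hK5]; linarith
  have b4 : 144 * K4 ^ d ≤ K5 := by rw [hK5]; linarith
  have hK51 : 1 ≤ K5 := by linarith
  have hK50 : 0 < K5 := by linarith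
  refine ⟨K5, hK51, ?_⟩
  intro lam hl hl1 Es hflat L _ y hy hy1 hyK hyL
  have hl2 : 0 < lam ^ 2 := by positivity
  have hyK' : K4 * lam ^ 2 ≤ y ^ p := by
    refine le_trans ?_ hyK
    gcongr
  obtain ⟨m, G, h1, h2, h3, h4, hG, hP, hfl⟩ := H η (gaussianReal 0 1) lam hl Es hflat y hy hy1 hyK'
  have hn0 : (0 : ℝ) < ((2 * m + 1 : ℕ) : ℝ) := by positivity
  have hnL : 2 * m + 1 ≤ L := by
    have e : y * ((2 * m + 1 : ℕ) : ℝ) ≤ y * L := by linarith
    exact_mod_cast le_of_mul_le_mul_left e hy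
  have hy2 : 0 < y ^ 2 := by positivity
  obtain ⟨s, hs⟩ : ∃ z : ℝ, z = 12 * y ^ 2 / lam := ⟨_, rfl⟩
  have hs0 : 0 < s := by rw [hs]; positivity
  have hlow := lower (d := d) (L := L) (gaussianReal 0 1) lam (Es - y ^ 2) (2 * m + 1) hnL
  refine le_trans ?_ hlow
  have hsub : {V : AE.T d (2 * m + 1) → ℝ | (fun x => V x + s) ∈ G} ⊆
      Tr d (2 * m + 1) lam (Es - y ^ 2) := by
    intro V hV
    refine trial hd h1 lam (K / ((2 * m + 1 : ℕ) : ℝ) ^ 2) Es s hl.le hs0.le (fun x => V x + s) V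
      (Pool.Agent.Y663.Mc.of_flat lam η _ Es hη _ (hfl _ hV)) (fun x => by linarith) ?_ _ ?_
    · rw [Finset.mul_sum]
      refine Finset.sum_le_sum fun x _ => ?_
      have : V x + s - V x = s := by ring
      rw [this]
      linarith
    · have e : K / ((2 * m + 1 : ℕ) : ℝ) ^ 2 + 1024 * (d : ℝ) / ((2 * m + 1 : ℕ) : ℝ) ^ 2 =
        (K + 1024 * d) / ((2 * m + 1 : ℕ) : ℝ) ^ 2 := by rw [add_div]
      have h5 : lam * s / 4 = 3 * y ^ 2 := by
        rw [hs]; field_simp; norm_num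
      linarith
  have hsh := Gs.shiftG (ι := AE.T d (2 * m + 1)) s G hG
  have hcard : ((Fintype.card (AE.T d (2 * m + 1)) : ℕ) : ℝ) = ((2 * m + 1 : ℕ) : ℝ) ^ d := by
    simp [ZMod.card]
  rw [hcard] at hsh
  have hexp : s ^ 2 * ((2 * m + 1 : ℕ) : ℝ) ^ d ≤ K5 * (y ^ p / lam ^ 2) := by
    have h5 : (y * ((2 * m + 1 : ℕ) : ℝ)) ^ d ≤ K4 ^ d := pow_le_pow_left₀ (by positivity) h3 d
    have h6 : s ^ 2 * ((2 * m + 1 : ℕ) : ℝ) ^ d =
        144 * (y * ((2 * m + 1 : ℕ) : ℝ)) ^ d * (y ^ p / lam ^ 2) := by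
      have e4 : y ^ 4 = y ^ d * y ^ p := by rw [← pow_add, hdp]
      rw [hs, mul_pow, div_pow, mul_pow]
      have e5 : (y ^ 2) ^ 2 = y ^ d * y ^ p := by rw [← e4]; ring
      rw [e5]
      field_simp
      norm_num
    rw [h6]
    calc 144 * (y * ((2 * m + 1 : ℕ) : ℝ)) ^ d * (y ^ p / lam ^ 2) ≤
          144 * K4 ^ d * (y ^ p / lam ^ 2) := by gcongr
      _ ≤ _ := by gcongr
  have hP2 : 1 / 2 * Real.exp (-(K5 * (y ^ p / lam ^ 2))) ≤
      (Measure.pi fun _ : AE.T d (2 * m + 1) => gaussianReal 0 1).real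
        (Tr d (2 * m + 1) lam (Es - y ^ 2)) := by
    refine le_trans ?_ (hsh.trans (measureReal_mono hsub))
    have h7 : (1 : ℝ) / 2 ≤ (Measure.pi fun _ : AE.T d (2 * m + 1) => gaussianReal 0 1).real G ^ 2 := by
      have : (7 / 8 : ℝ) ^ 2 ≤ _ := pow_le_pow_left₀ (by norm_num) hP 2
      refine le_trans ?_ this
      norm_num
    have h8 : Real.exp (-(K5 * (y ^ p / lam ^ 2))) ≤
        Real.exp (-(s ^ 2 * ((2 * m + 1 : ℕ) : ℝ) ^ d)) := Real.exp_le_exp.2 (neg_le_neg hexp)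
    exact mul_le_mul h7 h8 (Real.exp_pos _).le (by positivity)
  rw [div_le_div_iff₀ hK50 (by positivity)]
  calc y ^ d * Real.exp (-(K5 * (y ^ p / lam ^ 2))) * (2 * ((2 * m + 1 : ℕ) : ℝ)) ^ d =
        (2 * (y * ((2 * m + 1 : ℕ) : ℝ))) ^ d * Real.exp (-(K5 * (y ^ p / lam ^ 2))) := by
        simp only [mul_pow]; ring
    _ ≤ (2 * K4) ^ d * Real.exp (-(K5 * (y ^ p / lam ^ 2))) := by gcongr
    _ ≤ (1 / 2 * Real.exp (-(K5 * (y ^ p / lam ^ 2)))) * K5 := by
        have := Real.exp_pos (-(K5 * (y ^ p / lam ^ 2)))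
        nlinarith
    _ ≤ _ := by gcongr

end Pool.Agent.H69.DS.Lb
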