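import Pool.Agent.H69.DS.Low3
import Pool.Agent.H69.DS.Win
import Pool.Agent.H69.DS.Ms
import Pool.Graph.R_pool_sql_team_seeded_5cf16337.K3h4.DS.D3

/-! The effective edge is small; assembly of the two-sided bounds in dimension three. -/

set_option autoImplicit false
set_option linter.unusedSectionVars false
set_option linter.unusedVariables false

open scoped BigOperators
open MeasureTheory ProbabilityTheory Filter Topology

namespace Pool.Agent.H69.DS.Es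

open Pool.Agent.H4R2
open Pool.Agent.H4R2.AE (Hop)
open Pool.Agent.K3h4.DS.As (Flats Filt)
open Pool.Agent.K3h4.DS
open Pool.Agent.H69.DS.Up (LowsB)
open Pool.Agent.H69.DS.Mul (dn cnt L_pos')

theorem exp_le_inv (t : ℝ) (ht : 0 < t) : Real.exp (-t) ≤ 1 / t := by
  rw [Real.exp_neg, one_div]
  apply inv_anti₀ ht
  have := Real.add_one_le_exp t
  linarith

theorem sum_hop {d L : ℕ} [NeZero L] (lam : ℝ) (V f : AE.T d L → ℝ) :
    ∑ x, Hop lam V f x = ∑ x, lam * V x * f x := by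
  unfold Hop
  rw [Finset.sum_add_distrib, Finset.sum_comm]
  have h : ∀ i : Fin d, ∑ x, (2 * f x - f (x + Pi.single i 1) - f (x - Pi.single i 1)) = 0 := by
    intro i
    rw [Finset.sum_sub_distrib, Finset.sum_sub_distrib, ← Finset.mul_sum]
    have hs : ∀ (F : AE.T d L → ℝ) (z : AE.T d L), ∑ x, F (x + z) = ∑ x, F x := fun F z =>
      Equiv.sum_comp (Equiv.addRight z) F
    have e1 : ∑ x : AE.T d L, f (x + Pi.single i 1) = ∑ x, f x := hs f (Pi.single i 1)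
    have e2 : ∑ x : AE.T d L, f (x - Pi.single i 1) = ∑ x, f x := by
      rw [← hs f (-Pi.single i 1)]
      exact Finset.sum_congr rfl fun x _ => by rw [sub_eq_add_neg]
    rw [e1, e2]
    ring
  rw [Finset.sum_eq_zero fun i _ => h i, zero_add]

/-- the energy of a flat state is at most the size of the potential -/
theorem flat_en {d L : ℕ} [NeZero L] (lam η κ E M : ℝ) (V : AE.T d L → ℝ)
    (hf : AE.Core.FlatE lam η κ E V) (hV : ∀ x, |lam * V x| ≤ M) : |E| ≤ M + κ := by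
  obtain ⟨E0, ψ, h1, h2, h3, -⟩ := hf
  have h4 := sum_hop lam V ψ
  rw [Finset.sum_congr rfl fun x _ => h3 x, ← Finset.mul_sum] at h4
  have hψ : 0 < ∑ x, ψ x := by
    refine Finset.sum_pos (fun x _ => ?_) ⟨0, Finset.mem_univ _⟩
    linarith [(h2 x).1]
  have h5 : |E0 * ∑ x, ψ x| ≤ M * ∑ x, ψ x := by
    rw [h4, Finset.mul_sum]
    refine (Finset.abs_sum_le_sum_abs _ _).trans (Finset.sum_le_sum fun x _ => ?_)
    rw [abs_mul, abs_of_nonneg (show 0 ≤ ψ x by linarith [(h2 x).1])]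
    exact mul_le_mul_of_nonneg_right (hV x) (by linarith [(h2 x).1])
  rw [abs_mul, abs_of_pos hψ] at h5
  have h6 : |E0| ≤ M := le_of_mul_le_mul_right h5 hψ
  have h7 : E = E0 - (E0 - E) := by ring
  rw [h7]
  refine (abs_sub _ _).trans ?_
  linarith

theorem es_small (K : ℝ) (hK : 1 ≤ K) : ∃ K' : ℝ, 1 ≤ K' ∧ ∀ lam : ℝ, 0 < lam → K' * lam ≤ 1 →
    ∀ Es : ℝ, Flats 3 1 (gaussianReal 0 1) lam 1 Es K → |Es| ≤ 1 / 2 := by
  have hK0 : 0 < K := by linarith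
  have hK3 : 1 ≤ K ^ 3 := one_le_pow₀ hK
  refine ⟨32000 * K ^ 3, by linarith, ?_⟩
  intro lam hl hlK Es hflat
  have hl1 : lam ≤ 1 := by
    have : 1 * lam ≤ 32000 * K ^ 3 * lam := by gcongr; linarith
    linarith
  have hl2 : 0 < lam ^ 2 := by positivity
  have hll : lam ^ 2 ≤ lam := by
    rw [sq]; exact mul_le_of_le_one_right hl.le hl1
  have hlK2 : 32000 * K ^ 3 * lam ^ 2 ≤ 1 := by
    refine le_trans ?_ hlK
    gcongr
  obtain ⟨L, hL⟩ : ∃ L : ℕ, L = ⌈4 * K⌉₊ := ⟨_, rfl⟩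
  have hL1 : 4 * K ≤ L := by rw [hL]; exact Nat.le_ceil _
  have hL2 : (L : ℝ) < 4 * K + 1 := by rw [hL]; exact Nat.ceil_lt_add_one (by linarith)
  have hL5 : (L : ℝ) ≤ 5 * K := by linarith
  have hL0 : (0 : ℝ) < L := by linarith
  have : NeZero L := ⟨by
    intro h
    rw [h] at hL0
    simp at hL0⟩
  have hK2 : K ^ 2 ≤ K ^ 3 := pow_le_pow_right₀ hK (by norm_num)
  have hpos : 0 < K * (lam ^ 2 * (L : ℝ) ^ 1) := by positivity
  have hc : K * (lam ^ 2 * (L : ℝ) ^ 1) ≤ 5 * K ^ 2 * lam ^ 2 := by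
    rw [pow_one]
    calc K * (lam ^ 2 * (L : ℝ)) ≤ K * (lam ^ 2 * (5 * K)) := by gcongr
      _ = _ := by ring
  have hc1 : 5 * K ^ 2 * lam ^ 2 ≤ 1 := by
    refine le_trans ?_ hlK2
    have : 5 * K ^ 2 ≤ 32000 * K ^ 3 := by linarith
    gcongr
  obtain ⟨G, hG, hP, hfl⟩ := hflat L (hc.trans hc1)
  have hP1 : K * Real.exp (-(1 / (K * (lam ^ 2 * (L : ℝ) ^ 1)))) ≤ 1 / 4 := by
    have h1 := exp_le_inv (1 / (K * (lam ^ 2 * (L : ℝ) ^ 1))) (by positivity)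
    rw [one_div_one_div] at h1
    calc K * Real.exp (-(1 / (K * (lam ^ 2 * (L : ℝ) ^ 1)))) ≤ K * (5 * K ^ 2 * lam ^ 2) := by
          gcongr
          exact h1.trans hc
      _ = 5 * K ^ 3 * lam ^ 2 := by ring
      _ ≤ 1 / 4 := by
          have : 0 < K ^ 3 * lam ^ 2 := by positivity
          linarith
  obtain ⟨B, hB⟩ : ∃ B : Set (AE.T 3 L → ℝ), B = ⋃ x, {ξ : AE.T 3 L → ℝ | 1 < |4 * lam * ξ x|} :=
    ⟨_, rfl⟩
  have hBP : (Measure.pi fun _ : AE.T 3 L => gaussianReal 0 1).real B ≤ 1 / 4 := by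
    rw [hB]
    refine (measureReal_iUnion_fintype_le _).trans ?_
    refine (Finset.sum_le_sum fun x _ =>
      AE.Goodg.goodg_gauss (4 * lam) (by positivity) x).trans ?_
    rw [Finset.sum_const, nsmul_eq_mul, Finset.card_univ, AE.Sens.card_T]
    have h1 := exp_le_inv (1 / (2 * (4 * lam) ^ 2)) (by positivity)
    rw [one_div_one_div] at h1
    calc (L : ℝ) ^ 3 * (2 * Real.exp (-(1 / (2 * (4 * lam) ^ 2)))) ≤
          (5 * K) ^ 3 * (2 * (2 * (4 * lam) ^ 2)) := by gcongr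
      _ = 8000 * K ^ 3 * lam ^ 2 := by ring
      _ ≤ 1 / 4 := by linarith
  have hne : (G \ B).Nonempty := by
    rw [Set.nonempty_iff_ne_empty]
    intro he
    have h1 : (Measure.pi fun _ : AE.T 3 L => gaussianReal 0 1).real G ≤
        (Measure.pi fun _ : AE.T 3 L => gaussianReal 0 1).real B :=
      measureReal_mono (Set.sdiff_eq_empty.1 he)
    linarith
  obtain ⟨V, hV1, hV2⟩ := hne
  have hV : ∀ x, |lam * V x| ≤ 1 / 4 := by
    intro x
    by_contra hcon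
    push Not at hcon
    apply hV2
    rw [hB]
    refine Set.mem_iUnion.2 ⟨x, ?_⟩
    show 1 < |4 * lam * V x|
    have e : 4 * lam * V x = 4 * (lam * V x) := by ring
    rw [e, abs_mul, abs_of_pos (by norm_num : (0 : ℝ) < 4)]
    linarith
  have h := flat_en lam 1 _ Es (1 / 4) V (hfl V hV1) hV
  have h2 : K / (L : ℝ) ^ 2 ≤ 1 / 4 := by
    rw [div_le_iff₀ (by positivity)]
    have h3 : (4 * K) ^ 2 ≤ (L : ℝ) ^ 2 := pow_le_pow_left₀ (by positivity) hL1 2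
    have h4 : K ≤ K ^ 2 := by
      calc K = K * 1 := (mul_one K).symm
        _ ≤ K * K := by gcongr
        _ = K ^ 2 := by ring
    nlinarith
  linarith

theorem lowsB_mono {d p : ℕ} {μ : Measure ℝ} {lam Es K K' : ℝ} (hl : 0 < lam) (hK : 0 < K)
    (hKK : K ≤ K') (h : LowsB d p μ lam Es K) : LowsB d p μ lam Es K' := by
  intro y hy hy1 hyK L _ hL
  have hL0 : (0 : ℝ) < L := AE.Core.L_pos (L := L)
  obtain ⟨G, h1, h2, h3⟩ := h y hy hy1 (le_trans (by gcongr) hyK) L (hKK.trans hL)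
  refine ⟨G, h1, le_trans ?_ h2, h3⟩
  have h4 : Real.exp (-(y ^ p / (K * lam ^ 2))) ≤ Real.exp (-(y ^ p / (K' * lam ^ 2))) := by
    refine Real.exp_le_exp.2 (neg_le_neg ?_)
    gcongr
  have hK'0 : 0 < K' := by linarith
  have h5 : K * (y * L) ^ d * Real.exp (-(y ^ p / (K * lam ^ 2))) ≤
      K' * (y * L) ^ d * Real.exp (-(y ^ p / (K' * lam ^ 2))) := by gcongr
  linarith

/-- one side, dimension three -/
theorem sideG : ∃ A : ℝ, 1 ≤ A ∧ ∀ lam : ℝ, 0 < lam → A * lam ≤ 1 → ∃ Es : ℝ, |Es| ≤ 1 / 2 ∧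
    Flats 3 1 (gaussianReal 0 1) lam 1 Es A ∧ ∀ (L : ℕ) [NeZero L], A ≤ lam ^ 2 * L →
      (∀ y : ℝ, 0 ≤ y → y ≤ 1 →
        (y + lam ^ 2) ^ 3 / A ≤ dn L 3 (gaussianReal 0 1) lam (Es + y ^ 2) ∧
        dn L 3 (gaussianReal 0 1) lam (Es + y ^ 2) ≤ A * (y + lam ^ 2) ^ 3) ∧
      (∀ y : ℝ, 0 ≤ y → y ≤ 1 → dn L 3 (gaussianReal 0 1) lam (Es - y ^ 2) ≤
        A * lam ^ 6 * Real.exp (-(y / (A * lam ^ 2)))) ∧
      ∀ y : ℝ, 0 ≤ y → y ≤ 1 → lam ^ 6 * Real.exp (-(A * (y / lam ^ 2))) / A ≤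
        dn L 3 (gaussianReal 0 1) lam (Es - y ^ 2) := by
  obtain ⟨K0, hK0, H0⟩ := AN.fin3G 1 one_pos le_rfl
  obtain ⟨K1, hK1, H1⟩ := Low3.lowsG K0 hK0
  obtain ⟨K2, hK2, H2⟩ := es_small K0 hK0
  obtain ⟨K, hK⟩ : ∃ z : ℝ, z = K0 + K1 := ⟨_, rfl⟩
  have hK00 : 0 < K0 := by linarith
  have hK10 : 0 < K1 := by linarith
  have hK' : 1 ≤ K := by rw [hK]; linarith
  have hKK0 : K0 ≤ K := by rw [hK]; linarith
  have hKK1 : K1 ≤ K := by rw [hK]; linarith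
  obtain ⟨b, C, hb, hC, hF⟩ := Fi.filt3 K (by linarith)
  obtain ⟨A0, hA0, HA⟩ := Win.win 3 1 (by norm_num) (by norm_num) le_rfl (by norm_num) K hK' b C
    hb.ne' hC hF 1 le_rfl
  obtain ⟨A, hA⟩ : ∃ z : ℝ, z = A0 + K + K2 := ⟨_, rfl⟩
  have hAA0 : A0 ≤ A := by rw [hA]; linarith
  have hAK : K ≤ A := by rw [hA]; linarith
  have hAK2 : K2 ≤ A := by rw [hA]; linarith
  have hA1 : 1 ≤ A := by linarith
  have hA00 : 0 < A0 := by linarith
  refine ⟨A, hA1, ?_⟩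
  intro lam hl hlA
  have hl1 : lam ≤ 1 := by
    have : 1 * lam ≤ A * lam := by gcongr
    linarith
  obtain ⟨Es, hEs, G1, -⟩ := H0 lam hl (le_trans (by have := hKK0.trans hAK; gcongr) hlA)
  have hfl0 : Flats 3 1 (gaussianReal 0 1) lam 1 Es K0 := by
    intro L _ hL
    simp only [pow_one] at hL ⊢
    exact G1 L hL
  have hEs2 := H2 lam hl (le_trans (by gcongr) hlA) Es hfl0
  have hlow1 := H1 lam hl hl1 Es hfl0
  have hfl := D3.flats_mono hl hK00 hKK0 hfl0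
  have hlow := lowsB_mono hl hK10 hKK1 hlow1
  refine ⟨Es, hEs2, D3.flats_mono hl (by linarith) hAK hfl, ?_⟩
  intro L _ hL
  have hw : lam ^ 2 ≤ lam := by
    rw [sq]
    exact mul_le_of_le_one_right hl.le hl1
  obtain ⟨R1, R2, R3⟩ := HA lam hl (le_trans (by gcongr) hlA) Es hEs2 hfl hlow L
    (hAA0.trans hL) (lam ^ 2) (by positivity) le_rfl hw (pow_one _)
  have hl6 : (lam ^ 2) ^ 3 = lam ^ 6 := by ring
  refine ⟨fun y hy hy1 => ⟨?_, ?_⟩, fun y hy hy1 => ?_, fun y hy hy1 => ?_⟩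
  · refine le_trans ?_ (R1 y hy hy1).1
    gcongr
  · refine (R1 y hy hy1).2.trans ?_
    gcongr
  · have h1 := R2 y hy hy1
    rw [pow_one, hl6] at h1
    refine h1.trans ?_
    gcongr
  · have h1 := R3 y hy hy1
    rw [pow_one, hl6] at h1
    refine le_trans ?_ h1
    gcongr

end Pool.Agent.H69.DS.Es
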