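import Pool.Graph.R_pool_sql_team_seeded_5cf16337.K3h4.DS.As
import Pool.Agent.H69.DS.Per

/-! Polynomial filters on a torus: bounds for the local spectral measures. -/

set_option autoImplicit false
set_option linter.unusedSectionVars false

open scoped BigOperators

namespace Pool.Agent.H69.DS.Flt

open Pool.Agent.H4R2.AE (T Hop)
open Pool.Agent.H541R3.AND.Trans
open Pool.Agent.H541R3.AND.Heat (QT)
open Pool.Agent.H541R3.AND.Deloc (q GoodAt)
open Pool.Agent.K3h4.AN.Dl (pol QL ql_symm pol_box)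
open Pool.Agent.K3h4.DS.Ex (ql_eq ql_sup)
open Pool.Agent.K3h4.DS.Fl (T_low)
open Pool.Agent.K3h4.DS.As (Filt)
open Pool.Agent.K3h4.DS
open Pool.Agent.H69.DS.Per
open Polynomial.Chebyshev (one_le_eval_T_real abs_eval_T_real_le_one)

variable {d L : ℕ} [NeZero L]

/-- an orthonormal eigenbasis of `-Δ + lam V` -/
def EB (lam : ℝ) (V : T d L → ℝ) (n : ℕ) (t : Fin n → ℝ) (b : Fin n → T d L → ℝ) : Prop :=
  (∀ i x, QL 1 (-1) lam V (b i) x = t i * b i x) ∧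
  (∀ f g : T d L → ℝ, ∑ x, f x * g x = ∑ i, (∑ x, b i x * f x) * (∑ x, b i x * g x)) ∧
  (∀ i, ∑ x, b i x ^ 2 = 1)

theorem hopE {lam : ℝ} {V : T d L → ℝ} {n : ℕ} {t : Fin n → ℝ} {b : Fin n → T d L → ℝ}
    (h : EB lam V n t b) (i : Fin n) (x : T d L) : Hop lam V (b i) x = t i * b i x := by
  rw [← ql_eq]
  exact h.1 i x

theorem polval {lam : ℝ} {V : T d L → ℝ} {n : ℕ} {t : Fin n → ℝ} {b : Fin n → T d L → ℝ}
    (h : EB lam V n t b) (c0 b0 : ℝ) (P : Polynomial ℝ) (x : T d L) :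
    ∑ y, (pol P (QT c0 b0 lam V) (Pi.single x 1) y) ^ 2 =
      ∑ i, (P.eval (q c0 b0 (t i))) ^ 2 * (b i x) ^ 2 := by
  classical
  have h1 : ∀ i y, QL c0 b0 lam V (b i) y = q c0 b0 (t i) * b i y := by
    intro i y
    show b i y - 1 / b0 * (Hop lam V (b i) y - c0 * b i y) = _
    rw [hopE h]
    unfold q
    ring
  have h2 := Fd.nrm (t := fun i => q c0 b0 (t i)) (ql_symm c0 b0 lam V) h1 h.2.1 P (Pi.single x 1)
  have h3 : ∑ y, (pol P (QT c0 b0 lam V) (Pi.single x 1) y) ^ 2 =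
      ∑ y, (pol P (QL c0 b0 lam V) (Pi.single x 1) y) ^ 2 := rfl
  rw [h3, h2]
  refine Finset.sum_congr rfl fun i _ => ?_
  congr 2
  rw [Finset.sum_eq_single x]
  · rw [Pi.single_eq_same, mul_one]
  · intro y _ hy
    rw [Pi.single_eq_of_ne hy, mul_zero]
  · intro hc; exact absurd (Finset.mem_univ x) hc

/-- mass of the states of energy at most `a` at the site `x` -/
noncomputable def ms {n : ℕ} (t : Fin n → ℝ) (b : Fin n → T d L → ℝ) (a : ℝ) (x : T d L) : ℝ :=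
  ∑ i ∈ Finset.univ.filter fun i => t i ≤ a, (b i x) ^ 2

theorem ms_nonneg {n : ℕ} (t : Fin n → ℝ) (b : Fin n → T d L → ℝ) (a : ℝ) (x : T d L) :
    0 ≤ ms t b a x := Finset.sum_nonneg fun i _ => sq_nonneg _

theorem ms_mono {n : ℕ} (t : Fin n → ℝ) (b : Fin n → T d L → ℝ) {a a' : ℝ} (h : a ≤ a')
    (x : T d L) : ms t b a x ≤ ms t b a' x := by
  unfold ms
  refine Finset.sum_le_sum_of_subset_of_nonneg (fun i hi => ?_) fun i _ _ => sq_nonneg _
  rw [Finset.mem_filter] at hi ⊢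
  exact ⟨hi.1, hi.2.trans h⟩

theorem ms_le_one {lam : ℝ} {V : T d L → ℝ} {n : ℕ} {t : Fin n → ℝ} {b : Fin n → T d L → ℝ}
    (h : EB lam V n t b) (a : ℝ) (x : T d L) : ms t b a x ≤ 1 := by
  classical
  have h1 := h.2.1 (Pi.single x 1) (Pi.single x 1)
  have e1 : ∑ y, (Pi.single x (1 : ℝ) : T d L → ℝ) y * (Pi.single x (1 : ℝ) : T d L → ℝ) y = 1 := by
    rw [Finset.sum_eq_single x]
    · simp
    · intro y _ hy
      rw [Pi.single_eq_of_ne hy, mul_zero]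
    · intro hc; exact absurd (Finset.mem_univ x) hc
  have e2 : ∀ i, ∑ y, b i y * (Pi.single x (1 : ℝ) : T d L → ℝ) y = b i x := by
    intro i
    rw [Finset.sum_eq_single x]
    · rw [Pi.single_eq_same, mul_one]
    · intro y _ hy
      rw [Pi.single_eq_of_ne hy, mul_zero]
    · intro hc; exact absurd (Finset.mem_univ x) hc
  rw [e1] at h1
  simp only [e2] at h1
  rw [h1]
  unfold ms
  rw [Finset.sum_congr rfl fun i _ => pow_two (b i x)]
  exact Finset.sum_le_sum_of_subset_of_nonneg (Finset.filter_subset _ _)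
    fun i _ _ => mul_self_nonneg _

theorem ms_sum {lam : ℝ} {V : T d L → ℝ} {n : ℕ} {t : Fin n → ℝ} {b : Fin n → T d L → ℝ}
    (h : EB lam V n t b) (a : ℝ) :
    ((Finset.univ.filter fun i => t i ≤ a).card : ℝ) = ∑ x, ms t b a x := by
  unfold ms
  rw [Finset.sum_comm, Finset.sum_congr rfl fun i _ => h.2.2 i]
  simp

/-- Chebyshev's inequality -/
theorem markov {lam : ℝ} {V : T d L → ℝ} {n : ℕ} {t : Fin n → ℝ} {b : Fin n → T d L → ℝ}
    (h : EB lam V n t b) (c0 b0 : ℝ) (P : Polynomial ℝ) (x : T d L) (a g : ℝ)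
    (hg : ∀ E : ℝ, E ≤ a → g ≤ (P.eval (q c0 b0 E)) ^ 2) :
    ms t b a x * g ≤ ∑ y, (pol P (QT c0 b0 lam V) (Pi.single x 1) y) ^ 2 := by
  rw [polval h]
  unfold ms
  rw [Finset.sum_mul]
  refine le_trans (Finset.sum_le_sum fun i hi => ?_)
    (Finset.sum_le_sum_of_subset_of_nonneg (Finset.filter_subset _ _)
      fun i _ _ => mul_nonneg (sq_nonneg _) (sq_nonneg _))
  rw [mul_comm]
  exact mul_le_mul_of_nonneg_right (hg _ (Finset.mem_filter.1 hi).2) (sq_nonneg _)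

/-- flat sites -/
theorem mb {K b0 C : ℝ} (hF : Filt d K b0 C) (h : ℕ) (hh : 0 < h) (hL : 2 * h + 1 ≤ L)
    (lam Es : ℝ) {V : T d L → ℝ} {n : ℕ} {t : Fin n → ℝ} {b : Fin n → T d L → ℝ}
    (hb : EB lam V n t b) (x : T d L) (hg : GoodAt h lam K Es (ext V x) 0) (κ : ℝ)
    (hκ : 4 / (h : ℝ) ^ 2 ≤ κ) (hκ1 : κ ≤ 1) :
    ms t b (Es + κ) x ≤ 16 * (C * κ ^ ((d : ℝ) / 2)) := by
  obtain ⟨c0, P, h1, h2, h3⟩ := hF h lam Es (ext V x) 0 hh hg κ hκ hκ1
  have h4 := markov hb c0 b0 P x (Es + κ) (1 / 16) fun E hE => by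
    have h5 := h3 E hE
    nlinarith
  rw [nrm_eq hL c0 b0 lam V x P h1] at h4
  linarith

/-- **the filter bound below the spectrum of the torus** -/
theorem fil2 (hd : 1 ≤ d) (lam : ℝ) {V : T d L → ℝ} {n : ℕ} {t : Fin n → ℝ}
    {b : Fin n → T d L → ℝ} (hb : EB lam V n t b) (x : T d L) (c0 b0 : ℝ)
    (hb0 : b0 ≠ 0) (h h0 k : ℕ) (hL : 2 * h + 1 ≤ L)
    (hV : ∀ y : T d (2 * h + 1), |lam * VT h (ext V x) 0 y| ≤ 1)
    (P0 : Polynomial ℝ) (hdeg : P0.natDegree ≤ h0) (hdeg' : h0 + k ≤ h)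
    (B : ℝ) (hB : ∑ z ∈ box h0 (0 : Zd d),
      (pol P0 (QZ c0 b0 lam (ext V x)) (Pi.single 0 1) z) ^ 2 ≤ B)
    (a1 κ : ℝ) (ha1 : |a1| ≤ 1) (hκ : 0 < κ) (hκ1 : κ ≤ 1)
    (hform : ∀ f : T d (2 * h + 1) → ℝ,
      a1 * ∑ x, f x ^ 2 ≤ ∑ y, f y * Hop lam (VT h (ext V x) 0) f y)
    (g : ℝ) (hg0 : 0 ≤ g) (hg : ∀ E : ℝ, E ≤ a1 - κ → g ≤ (P0.eval (q c0 b0 E)) ^ 2) :
    ms t b (a1 - κ) x * g ≤
      4 * B * Real.exp (-(2 * (k * Real.sqrt (2 * κ / (4 * d + 1 - a1))))) := by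
  have hd1 : (1 : ℝ) ≤ d := by exact_mod_cast hd
  obtain ⟨W, hW⟩ : ∃ W : ℝ, W = 4 * d + 1 - a1 := ⟨_, rfl⟩
  obtain ⟨ha, ha'⟩ := abs_le.1 ha1
  have hW2 : 2 ≤ W := by rw [hW]; linarith
  have hW0 : 0 < W := by linarith
  rw [← hW]
  obtain ⟨α, hα⟩ : ∃ α : ℝ, α = 2 * b0 / W := ⟨_, rfl⟩
  obtain ⟨β, hβ⟩ : ∃ β : ℝ, β = 1 + 2 / W * (a1 - c0 - b0) := ⟨_, rfl⟩
  obtain ⟨Q, hQ⟩ : ∃ Q : Polynomial ℝ, Q = (Polynomial.Chebyshev.T ℝ (k : ℤ)).comp
    (Polynomial.C α * Polynomial.X + Polynomial.C β) := ⟨_, rfl⟩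
  have hQev : ∀ t : ℝ, Q.eval t = (Polynomial.Chebyshev.T ℝ (k : ℤ)).eval (α * t + β) := by
    intro t
    rw [hQ, Polynomial.eval_comp]
    simp
  have hQdeg : Q.natDegree ≤ k := by
    rw [hQ]
    refine Polynomial.natDegree_comp_le.trans ?_
    have h1 : (Polynomial.C α * Polynomial.X + Polynomial.C β).natDegree ≤ 1 :=
      Polynomial.natDegree_linear_le
    have h2 : (Polynomial.Chebyshev.T ℝ (k : ℤ)).natDegree ≤ k := by
      rw [Polynomial.Chebyshev.natDegree_T]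
      simp
    calc _ ≤ k * 1 := Nat.mul_le_mul h2 h1
      _ = k := mul_one k
  have hy : ∀ E : ℝ, α * q c0 b0 E + β = 1 + 2 / W * (a1 - E) := by
    intro E
    rw [hα, hβ]
    unfold q
    field_simp
    ring
  have hPQ : (P0 * Q).natDegree ≤ h :=
    Polynomial.natDegree_mul_le.trans (by omega)
  -- the torus
  have key : ∑ y : T d (2 * h + 1),
      (pol (P0 * Q) (QT c0 b0 lam (VT h (ext V x) 0)) (Pi.single 0 1) y) ^ 2 ≤
      ∑ y : T d (2 * h + 1), (pol P0 (QT c0 b0 lam (VT h (ext V x) 0)) (Pi.single 0 1) y) ^ 2 := by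
    obtain ⟨N, t', bb, h1, h2, h3⟩ := Fd.eb (QL 1 (-1) lam (VT h (ext V x) 0))
      (ql_symm 1 (-1) lam (VT h (ext V x) 0))
    have hbb : EB lam (VT h (ext V x) 0) N t' bb := ⟨h1, h2, h3⟩
    rw [polval hbb, polval hbb]
    refine Finset.sum_le_sum fun i _ => ?_
    refine mul_le_mul_of_nonneg_right ?_ (sq_nonneg _)
    have hElow : a1 ≤ t' i := by
      have h4 := hform (bb i)
      have h5 : ∑ y, bb i y * Hop lam (VT h (ext V x) 0) (bb i) y = t' i := by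
        have e : ∀ y, bb i y * Hop lam (VT h (ext V x) 0) (bb i) y = t' i * bb i y ^ 2 := by
          intro y; rw [hopE hbb]; ring
        rw [Finset.sum_congr rfl fun y _ => e y, ← Finset.mul_sum, h3, mul_one]
      rw [h5, h3, mul_one] at h4
      exact h4
    have hEup : t' i ≤ 4 * d + 1 := by
      have h5 := Fd.tbd (A := QL 1 (-1) lam (VT h (ext V x) 0)) h1 h3 (4 * d + 1)
        (fun f M hf y => ql_sup lam (VT h (ext V x) 0) hV f M hf y) i
      exact (abs_le.1 h5).2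
    have hab : |(Polynomial.Chebyshev.T ℝ (k : ℤ)).eval (1 + 2 / W * (a1 - t' i))| ≤ 1 := by
      apply abs_eval_T_real_le_one
      rw [abs_le]
      have h6 : 2 / W * (a1 - t' i) ≤ 0 :=
        mul_nonpos_of_nonneg_of_nonpos (by positivity) (by linarith)
      have h7 : -2 ≤ 2 / W * (a1 - t' i) := by
        have h8 : 2 / W * (a1 - t' i) ≥ 2 / W * (-W) :=
          mul_le_mul_of_nonneg_left (by rw [hW]; linarith) (by positivity)
        have h9 : 2 / W * (-W) = -2 := by field_simp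
        linarith
      constructor <;> linarith
    rw [Polynomial.eval_mul, hQev, hy, mul_pow]
    have h6 : (Polynomial.Chebyshev.T ℝ (k : ℤ)).eval (1 + 2 / W * (a1 - t' i)) ^ 2 ≤ 1 := by
      rw [← sq_abs]
      exact pow_le_one₀ (abs_nonneg _) hab
    exact mul_le_of_le_one_right (sq_nonneg _) h6
  rw [← (pol_box h c0 b0 lam (ext V x) 0 (P0 * Q) hPQ).2,
    ← (pol_box h c0 b0 lam (ext V x) 0 P0 (by omega)).2,
    ← nrm_eq hL c0 b0 lam V x (P0 * Q) hPQ, ← nrm_eq hL c0 b0 lam V x P0 (by omega),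
    nrm_eq (h := h0) (by omega) c0 b0 lam V x P0 hdeg] at key
  have hint := key.trans hB
  -- lower bound of the polynomial
  obtain ⟨X, hX⟩ : ∃ X : ℝ, X = Real.exp (k * Real.sqrt (2 * κ / W)) / 2 := ⟨_, rfl⟩
  have hX0 : 0 < X := by rw [hX]; positivity
  have hlow : ∀ E : ℝ, E ≤ a1 - κ → g * X ^ 2 ≤ (P0 * Q).eval (q c0 b0 E) ^ 2 := by
    intro E hE
    rw [Polynomial.eval_mul, hQev, hy, mul_pow]
    have h1 : 1 + 2 * κ / W ≤ 1 + 2 / W * (a1 - E) := by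
      have h2 : 2 * κ / W = 2 / W * κ := by ring
      rw [h2]
      have h3 : 2 / W * κ ≤ 2 / W * (a1 - E) :=
        mul_le_mul_of_nonneg_left (by linarith) (by positivity)
      linarith
    have h2 := T_low k (2 * κ / W) (1 + 2 / W * (a1 - E)) (by positivity)
      (by rw [div_le_one hW0]; linarith) h1
    rw [← hX] at h2
    exact mul_le_mul (hg E hE) (pow_le_pow_left₀ hX0.le h2 2) (sq_nonneg _) (sq_nonneg _)
  have h1 : ms t b (a1 - κ) x * (g * X ^ 2) ≤ B :=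
    (markov hb c0 b0 (P0 * Q) x (a1 - κ) (g * X ^ 2) hlow).trans hint
  have hB0 : 0 ≤ B := le_trans (Finset.sum_nonneg fun z _ => sq_nonneg _) hB
  have hXX : X ^ 2 * (4 * Real.exp (-(2 * (k * Real.sqrt (2 * κ / W))))) = 1 := by
    rw [hX, div_pow, ← Real.exp_nat_mul]
    have : Real.exp (((2 : ℕ) : ℝ) * (k * Real.sqrt (2 * κ / W))) *
        Real.exp (-(2 * (k * Real.sqrt (2 * κ / W)))) = 1 := by
      rw [← Real.exp_add]
      push_cast
      rw [add_neg_cancel, Real.exp_zero]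
    linarith
  calc ms t b (a1 - κ) x * g = (ms t b (a1 - κ) x * (g * X ^ 2)) *
        (4 * Real.exp (-(2 * (k * Real.sqrt (2 * κ / W))))) := by
        have : (ms t b (a1 - κ) x * (g * X ^ 2)) *
          (4 * Real.exp (-(2 * (k * Real.sqrt (2 * κ / W))))) = ms t b (a1 - κ) x * g *
          (X ^ 2 * (4 * Real.exp (-(2 * (k * Real.sqrt (2 * κ / W)))))) := by ring
        rw [this, hXX, mul_one]
    _ ≤ B * (4 * Real.exp (-(2 * (k * Real.sqrt (2 * κ / W))))) := by gcongr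
    _ = _ := by ring

end Pool.Agent.H69.DS.Flt
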