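import Pool.Agent.H69.DS.Mul
import Pool.Graph.R_pool_sql_team_seeded_5cf16337.K3h4.DS.At

/-! Upper bounds for the expected number of eigenvalues per site near the effective edge. -/

set_option autoImplicit false
set_option linter.unusedSectionVars false
set_option linter.unusedVariables false

open scoped BigOperators ENNReal
open MeasureTheory Filter Topology

namespace Pool.Agent.H69.DS.Up

open Pool.Agent.H4R2
open Pool.Agent.H4R2.AE (Hop)
open Pool.Agent.H541R3.AND.Trans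
open Pool.Agent.H541R3.AND.Deloc (q GoodAt)
open Pool.Agent.K3h4.DS.As (Filt Flats exp3 exp4)
open Pool.Agent.K3h4.DS.At (scale rp xd)
open Pool.Agent.H69.DS.Per
open Pool.Agent.H69.DS.Flt
open Pool.Agent.H69.DS.Mul

/-- above the edge -/
theorem upA (d p : ℕ) (hd : 1 ≤ d) (hdp : d ≤ 3 * p) (hd3 : d ≤ 3) (hp : 1 ≤ p) (hp2 : p ≤ 2)
    (K : ℝ) (hK : 1 ≤ K) (b C : ℝ) (hC : 0 < C) (hF : Filt d K b C) (η : ℝ) (hη : η ≤ 1) :
    ∃ K3 : ℝ, 0 < K3 ∧ ∀ (μ : Measure ℝ) [IsProbabilityMeasure μ],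
    ∀ lam : ℝ, 0 < lam → lam ≤ 1 → ∀ Es : ℝ, Flats d p μ lam η Es K →
    ∀ (L : ℕ) [NeZero L], ∀ y : ℝ, 0 < y → y ≤ 1 → 49 * K * lam ^ 2 ≤ y ^ p → 7 ≤ y * L →
      dn L d μ lam (Es + y ^ 2) ≤ K3 * y ^ d := by
  have hK0 : 0 < K := by linarith
  obtain ⟨K2, hK2, hm⟩ := multi d p hd hdp hd3 hp hp2 K hK b C hC hF η hη K (1 / (49 * K)) le_rfl
    (by positivity) le_rfl
  refine ⟨16 * C + K2, by positivity, ?_⟩
  intro μ _ lam hl hl1 Es hflat L _ y hy hy1 hyK hyL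
  obtain ⟨h, G, h1, h1', h3, hG, hP, hfl⟩ := scale d p hp2 K hK η μ lam hl Es hflat y hy
    hy1 hyK
  have hhL : 2 * h + 1 ≤ L := by
    have e1 : (h : ℝ) * y ≤ 3 := by rwa [le_div_iff₀ hy] at h1'
    have e2 : y * ((2 * h + 1 : ℕ) : ℝ) ≤ y * L := by
      push_cast
      linarith
    exact_mod_cast le_of_mul_le_mul_left e2 hy
  have hb := hm μ lam hl hl1 Es hflat L y hy hy1 hyK hyL (16 * (C * y ^ d))
    (by positivity) (Es + y ^ 2) le_rfl
    {V | cut h V ∉ G} ((cut_meas h) hG.compl) (by rw [bad_eq μ hhL G hG]; exact hP) (by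
      intro V hV n t b hb
      have hV' : cut h V ∈ G := by
        by_contra hc
        exact hV hc
      have h7 := mb hF h h1 hhL lam Es hb 0 (good_of hη (hfl _ hV')) (y ^ 2) h3
        (pow_le_one₀ hy.le hy1)
      rwa [rp d y hy] at h7)
  refine hb.trans ?_
  have hexp : Real.exp (-(1 / (49 * K) * (y ^ p / lam ^ 2) / 2)) ≤ 1 := by
    rw [Real.exp_le_one_iff]
    have : 0 ≤ 1 / (49 * K) * (y ^ p / lam ^ 2) / 2 := by positivity
    linarith
  calc 16 * (C * y ^ d) + K2 * y ^ d * Real.exp (-(1 / (49 * K) * (y ^ p / lam ^ 2) / 2)) ≤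
        16 * (C * y ^ d) + K2 * y ^ d * 1 := by gcongr
    _ = (16 * C + K2) * y ^ d := by ring

/-- lower bound of the spectrum of large tori -/
def LowsB (d p : ℕ) (μ : Measure ℝ) (lam Es K : ℝ) : Prop :=
  ∀ y : ℝ, 0 < y → y ≤ 1 → K * lam ^ 2 ≤ y ^ p → ∀ (L : ℕ) [NeZero L], K ≤ y * L →
    ∃ G : Set (AE.T d L → ℝ), MeasurableSet G ∧
      1 - K * (y * L) ^ d * Real.exp (-(y ^ p / (K * lam ^ 2))) ≤
        (Measure.pi fun _ : AE.T d L => μ).real G ∧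
      ∀ V ∈ G, (∀ x, |lam * V x| ≤ 1) ∧ ∀ f : AE.T d L → ℝ,
        (Es - y ^ 2) * ∑ x, f x ^ 2 ≤ ∑ x, f x * Hop lam V f x

/-- below the edge -/
theorem upB (d p : ℕ) (hd : 1 ≤ d) (hdp : d ≤ 3 * p) (hd3 : d ≤ 3) (hp : 1 ≤ p) (hp2 : p ≤ 2)
    (K : ℝ) (hK : 1 ≤ K) (b C : ℝ) (hb : b ≠ 0) (hC : 0 < C) (hF : Filt d K b C) (η : ℝ)
    (hη : η ≤ 1) :
    ∃ K3 : ℝ, 1 ≤ K3 ∧ ∀ (μ : Measure ℝ) [IsProbabilityMeasure μ],
    ∀ lam : ℝ, 0 < lam → lam ≤ 1 / 2 → ∀ Es : ℝ, |Es| ≤ 1 / 2 → Flats d p μ lam η Es K →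
    LowsB d p μ lam Es K →
    ∀ (L : ℕ) [NeZero L], 12 ≤ lam ^ 2 * L →
    ∀ y : ℝ, 0 < y → y ≤ 1 → 49 * K * lam ^ 2 ≤ y ^ p →
      dn L d μ lam (Es - y ^ 2) ≤ K3 * y ^ d * Real.exp (-(y ^ p / (K3 * lam ^ 2))) := by
  have hK0 : 0 < K := by linarith
  obtain ⟨c1, hc1⟩ : ∃ z : ℝ, z = 1 / (49 * K) := ⟨_, rfl⟩
  have hc10 : 0 < c1 := by rw [hc1]; positivity
  -- probability of the bad event at the first scale
  obtain ⟨cL, hcL⟩ : ∃ z : ℝ, z = 1 / (4 * K) := ⟨_, rfl⟩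
  have hcL0 : 0 < cL := by rw [hcL]; positivity
  obtain ⟨A1, hA1⟩ : ∃ z : ℝ, z = K * 6 ^ d * (6 * (2 / cL) ^ 3) := ⟨_, rfl⟩
  have hA10 : 0 < A1 := by rw [hA1]; positivity
  obtain ⟨K1, hK1⟩ : ∃ z : ℝ, z = K + A1 := ⟨_, rfl⟩
  have hK1K : K ≤ K1 := by rw [hK1]; linarith
  obtain ⟨c2, hc2⟩ : ∃ z : ℝ, z = min c1 (cL / 2) := ⟨_, rfl⟩
  have hc20 : 0 < c2 := by rw [hc2]; positivity
  have hc21 : c2 ≤ c1 := by rw [hc2]; exact min_le_left _ _
  have hc2L : c2 ≤ cL / 2 := by rw [hc2]; exact min_le_right _ _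
  obtain ⟨K2, hK2, hm⟩ := multi d p hd hdp hd3 hp hp2 K hK b C hC hF η hη K1 c2 hK1K hc20
    (by rw [← hc1]; exact hc21)
  obtain ⟨K3, hK3⟩ : ∃ z : ℝ, z = 64 * C + K2 + 2 / c2 + 3 := ⟨_, rfl⟩
  have hK31 : 3 ≤ K3 := by
    rw [hK3]
    have : 0 < 64 * C + K2 + 2 / c2 := by positivity
    linarith
  refine ⟨K3, by linarith, ?_⟩
  intro μ _ lam hl hl2' Es hEs hflat hlow L _ hL12 y hy hy1 hyK
  have hl1 : lam ≤ 1 := by linarith
  have hl2 : 0 < lam ^ 2 := by positivity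
  have hL0 : (0 : ℝ) < L := L_pos'
  have hyp : y ^ p ≤ y := by
    calc y ^ p ≤ y ^ 1 := pow_le_pow_of_le_one hy.le hy1 hp
      _ = y := pow_one y
  have hyL : 7 ≤ y * L := by
    have q1 : lam ^ 2 ≤ y := by
      have : 1 * lam ^ 2 ≤ 49 * K * lam ^ 2 := by gcongr; linarith
      linarith
    have q2 : lam ^ 2 * L ≤ y * L := by gcongr
    linarith
  obtain ⟨x, hx⟩ : ∃ x, x = y ^ p / lam ^ 2 := ⟨_, rfl⟩
  have hx1 : 49 * K ≤ x := by rw [hx, le_div_iff₀ hl2]; exact hyK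
  have hx1' : 1 ≤ x := by linarith
  have hx0 : 0 < x := by linarith
  obtain ⟨h, G, h1, h1', h3, hG, hP, hfl⟩ := scale d p hp2 K hK η μ lam hl Es hflat y hy hy1 hyK
  -- the large torus
  obtain ⟨n, hn⟩ : ∃ n : ℕ, n = ⌈x / y⌉₊ := ⟨_, rfl⟩
  have hxy : 1 ≤ x / y := by rw [le_div_iff₀ hy]; linarith
  have hn1 : x / y ≤ n := by rw [hn]; exact Nat.le_ceil _
  have hn2 : (n : ℝ) < x / y + 1 := by rw [hn]; exact Nat.ceil_lt_add_one (by linarith)
  have hny : x ≤ n * y := by rwa [div_le_iff₀ hy] at hn1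
  obtain ⟨H, hH⟩ : ∃ H : ℕ, H = h + n := ⟨_, rfl⟩
  have hHy : (y / 2) * ((2 * H + 1 : ℕ) : ℝ) ≤ 6 * x := by
    rw [hH]
    push_cast
    have e1 : (h : ℝ) * y ≤ 3 := by rwa [le_div_iff₀ hy] at h1'
    have e2 : (n : ℝ) * y ≤ x + y := by
      have h9 : (n : ℝ) * y ≤ (x / y + 1) * y := by gcongr
      have h10 : (x / y + 1) * y = x + y := by field_simp
      linarith
    have e3 : y / 2 * (2 * ((h : ℝ) + n) + 1) = h * y + n * y + y / 2 := by ring
    rw [e3]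
    linarith
  have hxl : x ≤ y / lam ^ 2 := by rw [hx]; gcongr
  have hHL : 2 * H + 1 ≤ L := by
    have q1 : (y / 2) * ((2 * H + 1 : ℕ) : ℝ) ≤ (y / 2) * L := by
      refine hHy.trans ?_
      have q2 : 6 * x ≤ 6 * (y / lam ^ 2) := by linarith
      refine q2.trans ?_
      have q3 : 6 * (y / lam ^ 2) = y / 2 * (12 / lam ^ 2) := by ring
      rw [q3]
      have q4 : 12 / lam ^ 2 ≤ L := by rw [div_le_iff₀ hl2]; linarith
      gcongr
    exact_mod_cast le_of_mul_le_mul_left q1 (by positivity)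
  have hhL : 2 * h + 1 ≤ L := by
    have : h ≤ H := by rw [hH]; exact Nat.le_add_right h n
    omega
  have hHy0 : K ≤ (y / 2) * ((2 * H + 1 : ℕ) : ℝ) := by
    rw [hH]
    push_cast
    have e3 : y / 2 * (2 * ((h : ℝ) + n) + 1) = h * y + n * y + y / 2 := by ring
    have e4 : 0 ≤ (h : ℝ) * y := by positivity
    rw [e3]
    linarith
  have hy2p : y ^ p / 4 ≤ (y / 2) ^ p := by
    rw [div_pow]
    have h9 : (2 : ℝ) ^ p ≤ 4 := by
      calc (2 : ℝ) ^ p ≤ 2 ^ 2 := pow_le_pow_right₀ (by norm_num) hp2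
        _ = 4 := by norm_num
    have : 0 < y ^ p := by positivity
    gcongr
  have hyKL : K * lam ^ 2 ≤ (y / 2) ^ p := by
    refine le_trans ?_ hy2p
    have : 0 < K * lam ^ 2 := by positivity
    linarith
  obtain ⟨G', hG', hP', hfb⟩ := hlow (y / 2) (by linarith) (by linarith) hyKL (2 * H + 1) hHy0
  have hPL : K * ((y / 2) * ((2 * H + 1 : ℕ) : ℝ)) ^ d *
      Real.exp (-((y / 2) ^ p / (K * lam ^ 2))) ≤ A1 * Real.exp (-(cL / 2 * x)) := by
    have e1 : cL * x ≤ (y / 2) ^ p / (K * lam ^ 2) := by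
      rw [hcL, hx, le_div_iff₀ (by positivity)]
      calc 1 / (4 * K) * (y ^ p / lam ^ 2) * (K * lam ^ 2) = y ^ p / 4 := by field_simp
        _ ≤ _ := hy2p
    calc K * ((y / 2) * ((2 * H + 1 : ℕ) : ℝ)) ^ d * Real.exp (-((y / 2) ^ p / (K * lam ^ 2))) ≤
          K * (6 * x) ^ d * Real.exp (-(cL * x)) := by gcongr
      _ = K * 6 ^ d * (x ^ d * Real.exp (-(cL * x))) := by rw [mul_pow]; ring
      _ ≤ K * 6 ^ d * (6 * (2 / cL) ^ 3 * Real.exp (-(cL / 2 * x))) :=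
          mul_le_mul_of_nonneg_left (xd d hd3 cL x hcL0 hx1') (by positivity)
      _ = _ := by rw [hA1]; ring
  obtain ⟨B0, hB0⟩ : ∃ B0 : Set (AE.T d L → ℝ), B0 = {V | cut h V ∉ G} ∪ {V | cut H V ∉ G'} :=
    ⟨_, rfl⟩
  have hB0m : MeasurableSet B0 := by
    rw [hB0]
    exact ((cut_meas h) hG.compl).union ((cut_meas H) hG'.compl)
  have hB0P : (Measure.pi fun _ : AE.T d L => μ).real B0 ≤ K1 * Real.exp (-(c2 * x)) := by
    rw [hB0]
    refine (measureReal_union_le _ _).trans ?_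
    rw [bad_eq μ hhL G hG, bad_eq μ hHL G' hG']
    have q1 : (Measure.pi fun _ : AE.T d (2 * h + 1) => μ).real Gᶜ ≤ K * Real.exp (-(c2 * x)) := by
      rw [← hc1, ← hx] at hP
      refine hP.trans ?_
      gcongr
    have q2 : (Measure.pi fun _ : AE.T d (2 * H + 1) => μ).real G'ᶜ ≤
        A1 * Real.exp (-(c2 * x)) := by
      rw [probReal_compl_eq_one_sub hG']
      have q3 : A1 * Real.exp (-(cL / 2 * x)) ≤ A1 * Real.exp (-(c2 * x)) := by gcongr
      linarith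
    rw [hK1, add_mul]
    exact add_le_add q1 q2
  have hEs1 := abs_le.1 hEs
  have hb2 := hm μ lam hl hl1 Es hflat L y hy hy1 hyK hyL
    (64 * C * y ^ d * Real.exp (-(x / 3))) (by positivity) (Es - y ^ 2)
    (by nlinarith [sq_nonneg y]) B0 hB0m
    (by rw [← hx]; exact hB0P) (by
      intro V hV N t bs hbs
      rw [hB0] at hV
      have hω1 : cut h V ∈ G := by
        by_contra hc
        exact hV (Or.inl hc)
      have hω2 : cut H V ∈ G' := by
        by_contra hc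
        exact hV (Or.inr hc)
      refine (ms_mono t bs (show Es - y ^ 2 ≤ Es - y ^ 2 / 2 by linarith [sq_nonneg y]) 0).trans ?_
      obtain ⟨c0, P, p1, p2, p3⟩ := hF h lam Es (ext V 0) 0 h1 (good_of hη (hfl _ hω1)) (y ^ 2) h3
        (pow_le_one₀ hy.le hy1)
      rw [rp d y hy] at p2
      have hy41 : y ^ 2 ≤ 1 := pow_le_one₀ hy.le hy1
      have hy40 : 0 < y ^ 2 := by positivity
      have ha1 : |Es - (y / 2) ^ 2| ≤ 1 := by
        rw [abs_le]
        constructor <;> nlinarith [hEs1.1, hEs1.2]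
      have hfil := fil2 hd lam hbs 0 c0 b hb H h n hHL (fun z => (hfb _ hω2).1 z) P p1 (by omega)
        (C * y ^ d) p2
        (Es - (y / 2) ^ 2) (y ^ 2 / 4) ha1 (by positivity) (by linarith)
        (fun f => (hfb _ hω2).2 f) (1 / 16) (by norm_num) (fun E hE => by
          have h9 := p3 E (by nlinarith)
          nlinarith)
      have e9 : Es - (y / 2) ^ 2 - y ^ 2 / 4 = Es - y ^ 2 / 2 := by ring
      rw [e9] at hfil
      -- the exponent
      have hW : 4 * (d : ℝ) + 1 - (Es - (y / 2) ^ 2) ≤ 14 := by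
        have hd3' : (d : ℝ) ≤ 3 := by exact_mod_cast hd3
        nlinarith [hEs1.1]
      have hd1' : (1 : ℝ) ≤ d := by exact_mod_cast hd
      have hW0 : 0 < 4 * (d : ℝ) + 1 - (Es - (y / 2) ^ 2) := by nlinarith [(abs_le.1 ha1).2]
      have hs6 : y / 6 ≤ Real.sqrt (2 * (y ^ 2 / 4) / (4 * d + 1 - (Es - (y / 2) ^ 2))) := by
        apply Real.le_sqrt_of_sq_le
        rw [le_div_iff₀ hW0]
        nlinarith
      have hexp : Real.exp (-(2 * (n * Real.sqrt (2 * (y ^ 2 / 4) /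
          (4 * d + 1 - (Es - (y / 2) ^ 2)))))) ≤ Real.exp (-(x / 3)) := by
        apply Real.exp_le_exp.2
        apply neg_le_neg
        have h9 : (n : ℝ) * (y / 6) ≤ n * Real.sqrt (2 * (y ^ 2 / 4) /
          (4 * d + 1 - (Es - (y / 2) ^ 2))) := mul_le_mul_of_nonneg_left hs6 (Nat.cast_nonneg n)
        linarith
      have hfin : ms t bs (Es - y ^ 2 / 2) 0 * (1 / 16) ≤
          4 * (C * y ^ d) * Real.exp (-(x / 3)) := by
        refine hfil.trans ?_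
        exact mul_le_mul_of_nonneg_left hexp (by positivity)
      linarith)
  refine hb2.trans ?_
  rw [← hx]
  have e0 : y ^ p / (K3 * lam ^ 2) = x / K3 := by rw [hx]; field_simp
  rw [e0]
  have q1 : Real.exp (-(x / 3)) ≤ Real.exp (-(x / K3)) := by
    apply Real.exp_le_exp.2
    apply neg_le_neg
    gcongr
  have q2 : Real.exp (-(c2 * x / 2)) ≤ Real.exp (-(x / K3)) := by
    apply Real.exp_le_exp.2
    apply neg_le_neg
    rw [div_le_div_iff₀ (by linarith) (by norm_num)]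
    have q3 : 2 ≤ c2 * K3 := by
      rw [hK3]
      have : c2 * (2 / c2) = 2 := by field_simp
      have q4 : 0 < c2 * (64 * C + K2 + 3) := by positivity
      have q5 : c2 * (64 * C + K2 + 2 / c2 + 3) = c2 * (64 * C + K2 + 3) + c2 * (2 / c2) := by ring
      linarith
    calc x * 2 ≤ x * (c2 * K3) := by gcongr
      _ = c2 * x * K3 := by ring
  calc 64 * C * y ^ d * Real.exp (-(x / 3)) + K2 * y ^ d * Real.exp (-(c2 * x / 2)) ≤
        64 * C * y ^ d * Real.exp (-(x / K3)) + K2 * y ^ d * Real.exp (-(x / K3)) := by gcongr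
    _ = (64 * C + K2) * y ^ d * Real.exp (-(x / K3)) := by ring
    _ ≤ K3 * y ^ d * Real.exp (-(x / K3)) := by
        gcongr
        rw [hK3]
        have : 0 < 2 / c2 := by positivity
        linarith

end Pool.Agent.H69.DS.Up
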