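import Pool.Agent.H69.AN.G3
import Pool.Agent.H69.DS.Up

/-! Dimension three, Gaussian disorder: lower bound of the spectrum on large tori. -/

set_option autoImplicit false
set_option linter.unusedSectionVars false
set_option linter.unusedVariables false

open scoped BigOperators
open MeasureTheory ProbabilityTheory Filter Topology

namespace Pool.Agent.H69.DS.Low3

open Pool.Agent.H4R2
open Pool.Agent.H4R2.AE (T LapW Hop)
open Pool.Agent.K3h4.AN.Pe
open Pool.Agent.K3h4.AN.Pf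
open Pool.Agent.K3h4.AN.Tp
open Pool.Agent.K3h4.AN.Ch
open Pool.Agent.K3h4.AN.F3 (rh3 nn3 rate)
open Pool.Agent.Y663
open Pool.Agent.H4R2.LO (Zd)
open Pool.Agent.H69.AN (goodG gexp)

theorem gexp4 (σ : ℝ) (hσ : 0 < σ) : Real.exp (-(1 / (2 * σ ^ 2))) ≤
    122880 * σ ^ 10 * Real.exp (-(1 / (4 * σ ^ 2))) := by
  have e1 : Real.exp (-(1 / (2 * σ ^ 2))) = Real.exp (-(1 / (2 * (σ * Real.sqrt 2) ^ 2))) *
      Real.exp (-(1 / (4 * σ ^ 2))) := by
    rw [← Real.exp_add]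
    congr 1
    rw [mul_pow, Real.sq_sqrt (by norm_num)]
    field_simp
    norm_num
  have e2 := gexp (σ * Real.sqrt 2) (by positivity)
  have e3 : (σ * Real.sqrt 2) ^ 10 = 32 * σ ^ 10 := by
    have : (σ * Real.sqrt 2) ^ 10 = σ ^ 10 * (Real.sqrt 2 ^ 2) ^ 5 := by ring
    rw [this, Real.sq_sqrt (by norm_num)]
    ring
  rw [e3] at e2
  rw [e1]
  refine mul_le_mul_of_nonneg_right ?_ (Real.exp_pos _).le
  linarith

theorem low3G (K : ℝ) (hK : 1 ≤ K) (η : ℝ) (hη' : η ≤ 1) : ∃ K' : ℝ, 1 ≤ K' ∧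
    ∀ lam : ℝ, 0 < lam → lam ≤ 1 → ∀ Es : ℝ,
      (∀ (L : ℕ) [NeZero L], K * (lam ^ 2 * L) ≤ 1 →
        ∃ G : Set (AE.T 3 L → ℝ), MeasurableSet G ∧
          1 - K * Real.exp (-(1 / (K * (lam ^ 2 * L)))) ≤
            (Measure.pi fun _ : AE.T 3 L => gaussianReal 0 1).real G ∧
          ∀ V ∈ G, AE.Core.FlatE lam η (K / (L : ℝ) ^ 2) Es V) →
      ∀ κ : ℝ, K' * lam ^ 4 ≤ κ → κ ≤ 1 → ∀ (L : ℕ) [NeZero L], K' ≤ Real.sqrt κ * L →
        ∃ G : Set (AE.T 3 L → ℝ), MeasurableSet G ∧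
          1 - K' * (Real.sqrt κ * L) ^ 3 * Real.exp (-(Real.sqrt κ / (K' * lam ^ 2))) ≤
            (Measure.pi fun _ : AE.T 3 L => gaussianReal 0 1).real G ∧
          ∀ V ∈ G, (∀ x, |lam * V x| ≤ 1) ∧ ∀ f : AE.T 3 L → ℝ,
            (Es - κ) * ∑ x, f x ^ 2 ≤ ∑ x, f x * Hop lam V f x := by
  obtain ⟨A, hA, HA⟩ := rh3
  have hA0 : 0 < A := by linarith
  have hP16 : (2 : ℝ) ^ 42 * Real.exp (-(3 * 16)) ≤ 1 / 64 := by
    have h1 : Real.exp (-(3 * 16)) = (Real.exp (-1)) ^ 48 := by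
      rw [← Real.exp_nat_mul]; norm_num
    have h2 : Real.exp (-1) ≤ 2 / 5 := by
      rw [Real.exp_neg, inv_le_comm₀ (Real.exp_pos _) (by norm_num)]
      have := Real.exp_one_gt_d9
      norm_num
      linarith
    rw [h1]
    have h3 : Real.exp (-1) ^ 48 ≤ (2 / 5) ^ 48 := pow_le_pow_left₀ (Real.exp_pos _).le h2 48
    calc (2 : ℝ) ^ 42 * Real.exp (-1) ^ 48 ≤ 2 ^ 42 * (2 / 5) ^ 48 := by gcongr
      _ ≤ 1 / 64 := by norm_num
  obtain ⟨c1, hc1⟩ : ∃ z : ℝ, z = 1 / (24576 * A) := ⟨_, rfl⟩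
  have hc10 : 0 < c1 := by rw [hc1]; positivity
  obtain ⟨s, hs⟩ : ∃ z : ℝ, z = 4 * (K + 3072) := ⟨_, rfl⟩
  have hs1 : 1 ≤ s := by rw [hs]; linarith
  have hs0 : 0 < s := by linarith
  have hK0 : 0 < K := by linarith
  have hlog4 : 0 ≤ Real.log (4 * K) := Real.log_nonneg (by linarith)
  obtain ⟨S, hS⟩ : ∃ z : ℝ, z = 16 / c1 + 2 * s * K * (1 + Real.log (4 * K)) := ⟨_, rfl⟩
  have hS1 : 16 / c1 ≤ S := by
    have : 0 ≤ 2 * s * K * (1 + Real.log (4 * K)) := by positivity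
    linarith
  have hS2 : 2 * s * K * (1 + Real.log (4 * K)) ≤ S := by
    have : 0 < 16 / c1 := by positivity
    linarith
  have hS0 : 0 < S := lt_of_lt_of_le (by positivity) hS1
  have hc1p : 0 < 1 / c1 := by positivity
  obtain ⟨K', hK'⟩ : ∃ z : ℝ, z = S ^ 2 + 1 / c1 + 256 * (2 ^ 44 * A + 245760) + 2 * s + 4 :=
    ⟨_, rfl⟩
  have q1 : 0 < S ^ 2 := by positivity
  have q2 : 0 < 2 ^ 44 * A := by positivity
  have hK'1 : 1 ≤ K' := by linarith
  have hK'4 : 4 ≤ K' := by linarith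
  have hK'0 : 0 < K' := by linarith
  have hK'S : S ^ 2 ≤ K' := by linarith
  have hK'c : 1 / c1 ≤ K' := by linarith
  have hK'A : 256 * (2 ^ 44 * A + 245760) ≤ K' := by linarith
  have hK's : 2 * s ≤ K' := by linarith
  refine ⟨K', hK'1, ?_⟩
  intro lam hlam hlam1 Es hflat κ hκ hκ1 L _ hL
  have hκ0 : 0 < κ := lt_of_lt_of_le (by positivity) hκ
  have hL0 : (0 : ℝ) < L := AE.Core.L_pos (L := L)
  have hsκ0 : 0 < Real.sqrt κ := Real.sqrt_pos.2 hκ0
  have hsκ1 : Real.sqrt κ ≤ 1 := Real.sqrt_le_one.2 hκ1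
  have hsq : Real.sqrt κ ^ 2 = κ := Real.sq_sqrt hκ0.le
  have hl2 : 0 < lam ^ 2 := by positivity
  have hSκ : S * lam ^ 2 ≤ Real.sqrt κ := by
    apply Real.le_sqrt_of_sq_le
    calc (S * lam ^ 2) ^ 2 = S ^ 2 * lam ^ 4 := by ring
      _ ≤ K' * lam ^ 4 := by gcongr
      _ ≤ κ := hκ
  have hSκ' : S ≤ Real.sqrt κ / lam ^ 2 := by rw [le_div_iff₀ hl2]; exact hSκ
  obtain ⟨t, ht⟩ : ∃ z : ℝ, z = Real.sqrt κ / lam ^ 2 := ⟨_, rfl⟩
  rw [← ht] at hSκ'
  have hyy : yy (fun κ => A / Real.sqrt κ) lam κ (1 / 8) = c1 * t := by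
    unfold yy
    beta_reduce
    rw [hc1, ht]
    field_simp
    norm_num
  have het : Real.sqrt κ / (K' * lam ^ 2) = t / K' := by
    rw [ht, div_div, mul_comm]
  rw [het]
  have ht0 : 0 < t := lt_of_lt_of_le hS0 hSκ'
  have hexp : Real.exp (-(c1 * t)) ≤ Real.exp (-(t / K')) := by
    refine Real.exp_le_exp.2 (neg_le_neg ?_)
    rw [div_le_iff₀ hK'0]
    have h1 : 1 ≤ c1 * K' := by
      rw [div_le_iff₀ hc10] at hK'c
      linarith
    calc t = t * 1 := (mul_one t).symm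
      _ ≤ t * (c1 * K') := by gcongr
      _ = _ := by ring
  obtain ⟨p, hp⟩ : ∃ z : ℝ, z = 2 ^ 44 * A * (Real.sqrt κ * L) ^ 3 * Real.exp (-(c1 * t)) :=
    ⟨_, rfl⟩
  have hp0 : 0 < p := by rw [hp]; positivity
  obtain ⟨gg, hgg⟩ : ∃ z : ℝ, z = (L : ℝ) ^ 3 * (2 * Real.exp (-(1 / (2 * lam ^ 2)))) :=
    ⟨_, rfl⟩
  have hgg0 : 0 < gg := by rw [hgg]; positivity
  have hlsκ : lam ^ 2 ≤ Real.sqrt κ := by
    apply Real.le_sqrt_of_sq_le
    calc (lam ^ 2) ^ 2 = 1 * lam ^ 4 := by ring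
      _ ≤ K' * lam ^ 4 := by gcongr
      _ ≤ κ := hκ
  have htl : t ≤ 1 / lam ^ 2 := by
    rw [ht]
    gcongr
  have hgg1 : gg ≤ 245760 * (Real.sqrt κ * L) ^ 3 * Real.exp (-(t / K')) := by
    have e1 : Real.exp (-(1 / (4 * lam ^ 2))) ≤ Real.exp (-(t / K')) := by
      refine Real.exp_le_exp.2 (neg_le_neg ?_)
      calc t / K' ≤ (1 / lam ^ 2) / 4 := by gcongr
        _ = 1 / (4 * lam ^ 2) := by ring
    have e2 := gexp4 lam hlam
    have e3 : (lam ^ 2 * L) ^ 3 ≤ (Real.sqrt κ * L) ^ 3 := by gcongr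
    have e4 : lam ^ 10 ≤ (lam ^ 2) ^ 3 := by
      rw [← pow_mul]
      exact pow_le_pow_of_le_one hlam.le hlam1 (by norm_num)
    rw [hgg]
    calc (L : ℝ) ^ 3 * (2 * Real.exp (-(1 / (2 * lam ^ 2)))) ≤
          (L : ℝ) ^ 3 * (2 * (122880 * lam ^ 10 * Real.exp (-(1 / (4 * lam ^ 2))))) := by gcongr
      _ = 245760 * (lam ^ 10 * (L : ℝ) ^ 3) * Real.exp (-(1 / (4 * lam ^ 2))) := by ring
      _ ≤ 245760 * ((lam ^ 2) ^ 3 * (L : ℝ) ^ 3) * Real.exp (-(t / K')) := by gcongr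
      _ = 245760 * (lam ^ 2 * L) ^ 3 * Real.exp (-(t / K')) := by ring
      _ ≤ _ := by gcongr
  have hpK : 256 * (p + gg) ≤ K' * (Real.sqrt κ * L) ^ 3 * Real.exp (-(t / K')) := by
    have hp1 : p ≤ 2 ^ 44 * A * (Real.sqrt κ * L) ^ 3 * Real.exp (-(t / K')) := by
      rw [hp]
      gcongr
    calc 256 * (p + gg) ≤ 256 * (2 ^ 44 * A * (Real.sqrt κ * L) ^ 3 * Real.exp (-(t / K')) +
          245760 * (Real.sqrt κ * L) ^ 3 * Real.exp (-(t / K'))) := by gcongr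
      _ = (256 * (2 ^ 44 * A + 245760)) * (Real.sqrt κ * L) ^ 3 * Real.exp (-(t / K')) := by ring
      _ ≤ K' * (Real.sqrt κ * L) ^ 3 * Real.exp (-(t / K')) := by gcongr
  rcases le_or_gt (p + gg) (1 / 256) with hcase | hcase
  · have hκL : 1 / (4 * (L : ℝ) ^ 2) ≤ κ := by
      rw [div_le_iff₀ (by positivity)]
      have h2 : 1 ^ 2 ≤ (Real.sqrt κ * L) ^ 2 :=
        pow_le_pow_left₀ (by norm_num) (hK'1.trans hL) 2
      rw [mul_pow, hsq] at h2
      linarith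
    obtain ⟨E0, hE0, G0, hG0, hP0, hw0⟩ := goodG (HA L) lam hlam 16 (by norm_num) hP16
      κ (1 / 8) hκL (by norm_num) le_rfl (by
        rw [hyy]
        have h1 : 16 ≤ c1 * S := by
          rw [div_le_iff₀ hc10] at hS1
          linarith
        refine h1.trans ?_
        gcongr) (by rw [hyy, nn3 L A κ hκ0, ← hp]; linarith)
    rw [hyy, nn3 L A κ hκ0, ← hp, ← hgg] at hP0
    have hap0 : ∀ V ∈ G0, Mc.ApE lam (κ * (1 / 8)) E0 V := by
      intro V hV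
      obtain ⟨w, hw1, hw2⟩ := hw0 V hV
      exact Mc.of_sol lam κ (1 / 8) E0 hκ0.le (by norm_num) V w hw1 hw2
    -- the flat torus
    obtain ⟨L1, hL1⟩ : ∃ n : ℕ, n = ⌈s / Real.sqrt κ⌉₊ := ⟨_, rfl⟩
    have hX0 : 0 < s / Real.sqrt κ := by positivity
    have hX1 : 1 ≤ s / Real.sqrt κ := by rw [le_div_iff₀ hsκ0]; linarith
    have hL1ge : s / Real.sqrt κ ≤ L1 := by rw [hL1]; exact Nat.le_ceil _
    have hL1lt : (L1 : ℝ) < s / Real.sqrt κ + 1 := by rw [hL1]; exact Nat.ceil_lt_add_one hX0.le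
    have hL1le : (L1 : ℝ) ≤ 2 * s / Real.sqrt κ := by
      have : 2 * s / Real.sqrt κ = s / Real.sqrt κ + s / Real.sqrt κ := by ring
      linarith
    have hL10 : (0 : ℝ) < L1 := by linarith
    have : NeZero L1 := ⟨by
      intro h
      rw [h] at hL10
      simp at hL10⟩
    have hL1L : L1 ≤ L := by
      have h1 : (L1 : ℝ) ≤ L := by
        refine hL1le.trans ?_
        rw [div_le_iff₀ hsκ0]
        linarith
      exact_mod_cast h1
    have hlL1 : lam ^ 2 * L1 ≤ 2 * s / t := by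
      calc lam ^ 2 * L1 ≤ lam ^ 2 * (2 * s / Real.sqrt κ) := by gcongr
        _ = 2 * s / t := by rw [ht]; field_simp
    have hlL10 : 0 < lam ^ 2 * L1 := by positivity
    have hkey : K * (lam ^ 2 * L1) * (1 + Real.log (4 * K)) ≤ 1 := by
      have h1 : K * (lam ^ 2 * L1) * (1 + Real.log (4 * K)) ≤
          K * (2 * s / t) * (1 + Real.log (4 * K)) := by gcongr
      have h2 : K * (2 * s / t) * (1 + Real.log (4 * K)) =
          2 * s * K * (1 + Real.log (4 * K)) / t := by ring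
      rw [h2] at h1
      refine h1.trans ?_
      rw [div_le_one ht0]
      linarith
    have hk1 : K * (lam ^ 2 * L1) ≤ 1 := by
      have h1 : K * (lam ^ 2 * L1) * 1 ≤ K * (lam ^ 2 * L1) * (1 + Real.log (4 * K)) := by
        gcongr
        linarith
      linarith
    have hk2 : Real.log (4 * K) ≤ 1 / (K * (lam ^ 2 * L1)) := by
      rw [le_div_iff₀ (by positivity)]
      have h1 : 0 ≤ K * (lam ^ 2 * L1) := by positivity
      linarith
    obtain ⟨G1, hG1, hP1, hf1⟩ := hflat L1 hk1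
    have hP1' : 1 / 2 < (Measure.pi fun _ : AE.T 3 L1 => gaussianReal 0 1).real G1 := by
      have h1 : K * Real.exp (-(1 / (K * (lam ^ 2 * L1)))) ≤ 1 / 4 := by
        have h2 : Real.exp (-(1 / (K * (lam ^ 2 * L1)))) ≤ Real.exp (-Real.log (4 * K)) :=
          Real.exp_le_exp.2 (neg_le_neg hk2)
        rw [Real.exp_neg (Real.log _), Real.exp_log (by positivity)] at h2
        calc K * Real.exp (-(1 / (K * (lam ^ 2 * L1)))) ≤ K * (4 * K)⁻¹ := by gcongr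
          _ = 1 / 4 := by field_simp
      linarith
    have hel := Mc.el 3 (by norm_num) (gaussianReal 0 1) lam L1 L hL1L Es E0 (K / (L1 : ℝ) ^ 2)
      (κ * (1 / 8)) G1 G0 hG1 hP1' (by
        have : 1 - (2 * p + gg) ≤ (Measure.pi fun _ : AE.T 3 L => gaussianReal 0 1).real G0 := hP0
        linarith) (fun V hV => Mc.of_flat lam η _ Es hη' V (hf1 V hV)) hap0
    have hL12 : (K + 3072) / (L1 : ℝ) ^ 2 ≤ κ / 4 := by
      rw [div_le_iff₀ (by positivity)]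
      have h1 : s ≤ κ * (L1 : ℝ) ^ 2 := by
        have h2 : s ≤ Real.sqrt κ * L1 := by
          rw [div_le_iff₀ hsκ0] at hL1ge
          linarith
        have h3 : s ^ 2 ≤ (Real.sqrt κ * L1) ^ 2 := pow_le_pow_left₀ hs0.le h2 2
        rw [mul_pow, hsq] at h3
        have h4 : s * 1 ≤ s * s := by gcongr
        linarith [pow_two s]
      rw [hs] at h1
      linarith
    have he : K / (L1 : ℝ) ^ 2 + 1024 * ((3 : ℕ) : ℝ) / (L1 : ℝ) ^ 2 = (K + 3072) / (L1 : ℝ) ^ 2 := by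
      push_cast; ring
    have hEE : |Es - E0| ≤ κ / 4 + κ / 8 := by linarith
    obtain ⟨G, hG, hGP, hGV⟩ := Mc.torusBound (gaussianReal 0 1) lam (κ * (1 / 8)) E0
      (2 * p + gg) G0 hG0 hP0 hap0
    obtain ⟨B2, hB2⟩ : ∃ B2 : Set (AE.T 3 L → ℝ), B2 = ⋃ x, {ξ : AE.T 3 L → ℝ | 1 < |lam * ξ x|} :=
      ⟨_, rfl⟩
    have hB2m : MeasurableSet B2 := by
      rw [hB2]
      exact MeasurableSet.iUnion fun x => measurableSet_lt measurable_const (by fun_prop)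
    have hB2P : (Measure.pi fun _ : AE.T 3 L => gaussianReal 0 1).real B2 ≤ gg := by
      rw [hB2, hgg]
      refine (measureReal_iUnion_fintype_le _).trans ?_
      refine (Finset.sum_le_sum fun x _ => AE.Goodg.goodg_gauss lam hlam x).trans ?_
      rw [Finset.sum_const, nsmul_eq_mul, Finset.card_univ, AE.Sens.card_T]
    refine ⟨G ∩ B2ᶜ, hG.inter hB2m.compl, ?_, fun V hV => ⟨fun x => ?_, fun f => ?_⟩⟩
    · have h1 : (Measure.pi fun _ : AE.T 3 L => gaussianReal 0 1).real G ≤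
          (Measure.pi fun _ : AE.T 3 L => gaussianReal 0 1).real (G ∩ B2ᶜ) +
          (Measure.pi fun _ : AE.T 3 L => gaussianReal 0 1).real B2 := by
        refine (measureReal_mono (fun V hV => ?_)).trans (measureReal_union_le (G ∩ B2ᶜ) B2)
        by_cases h : V ∈ B2
        · exact Or.inr h
        · exact Or.inl ⟨hV, h⟩
      linarith
    · by_contra hcon
      push Not at hcon
      exact hV.2 (by rw [hB2]; exact Set.mem_iUnion.2 ⟨x, hcon⟩)
    · refine le_trans (mul_le_mul_of_nonneg_right ?_ (Finset.sum_nonneg fun x _ => sq_nonneg _))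
        (hGV V hV.1 f)
      have := (abs_le.1 hEE).2
      linarith
  · refine ⟨∅, MeasurableSet.empty, ?_, fun V hV => absurd hV (Set.notMem_empty V)⟩
    simp only [measureReal_empty]
    linarith

/-- the form needed for the density of states -/
theorem lowsG (K : ℝ) (hK : 1 ≤ K) : ∃ K' : ℝ, 1 ≤ K' ∧
    ∀ lam : ℝ, 0 < lam → lam ≤ 1 → ∀ Es : ℝ,
      Pool.Agent.K3h4.DS.As.Flats 3 1 (gaussianReal 0 1) lam 1 Es K →
      Up.LowsB 3 1 (gaussianReal 0 1) lam Es K' := by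
  obtain ⟨K1, hK1, H1⟩ := low3G K hK 1 le_rfl
  refine ⟨K1, hK1, ?_⟩
  intro lam hl hl1 Es hflat y hy hy1 hyK L _ hL
  rw [pow_one] at hyK ⊢
  have hsq : Real.sqrt (y ^ 2) = y := Real.sqrt_sq hy.le
  have h2 := H1 lam hl hl1 Es (by
    intro L _ hL
    have h3 := hflat L (by rw [pow_one]; exact hL)
    simp only [pow_one] at h3
    exact h3) (y ^ 2) (by
      have h3 : K1 * lam ^ 4 ≤ (K1 * lam ^ 2) ^ 2 := by
        have h4 : K1 * lam ^ 4 ≤ K1 * (K1 * lam ^ 4) := by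
          have : 0 ≤ K1 * lam ^ 4 := by positivity
          exact le_mul_of_one_le_left this hK1
        calc K1 * lam ^ 4 ≤ K1 * (K1 * lam ^ 4) := h4
          _ = _ := by ring
      exact h3.trans (pow_le_pow_left₀ (by positivity) hyK 2)) (pow_le_one₀ hy.le hy1) L
      (by rw [hsq]; exact hL)
  rw [hsq] at h2
  exact h2

end Pool.Agent.H69.DS.Low3
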