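import Pool.Agent.H69.DS.Eig
import Pool.Agent.H69.DS.Flt

/-! Upper bounds for the expected number of eigenvalues on a torus, from flat tori on all scales. -/

set_option autoImplicit false
set_option linter.unusedSectionVars false
set_option linter.unusedVariables false

open scoped BigOperators ENNReal
open MeasureTheory Filter Topology

namespace Pool.Agent.H69.DS.Mul

open Pool.Agent.H4R2
open Pool.Agent.H4R2.AE (Hop)
open Pool.Agent.H4R2.LO.El (map_pi)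
open Pool.Agent.H541R3.AND.Trans
open Pool.Agent.H541R3.AND.Deloc (q GoodAt)
open Pool.Agent.K3h4.AN.Dl (pol QL ql_symm)
open Pool.Agent.K3h4.DS.Ex (ql_eq)
open Pool.Agent.K3h4.DS.Lo (hop_shift sum_shift)
open Pool.Agent.K3h4.DS.Mo (step_bd)
open Pool.Agent.K3h4.DS.As (Filt Flats gs exp3 exp4)
open Pool.Agent.H69.DS.Per
open Pool.Agent.H69.DS.Flt
open Pool.Agent.Results.MP_1906c1_mp.ScaleAtEdge (numGE)

section basic
variable {d L : ℕ} [NeZero L]

/-- number of eigenvalues of `-Δ + lam V` that are at most `a` -/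
noncomputable def cnt (lam : ℝ) (V : AE.T d L → ℝ) (a : ℝ) : ℕ :=
  numGE lam (fun x => -V x) (2 * d - a)

theorem cnt_eq (lam : ℝ) (V : AE.T d L → ℝ) : ∃ (n : ℕ) (t : Fin n → ℝ)
    (b : Fin n → AE.T d L → ℝ), EB lam V n t b ∧
      ∀ a : ℝ, cnt lam V a = (Finset.univ.filter fun i => t i ≤ a).card := by
  obtain ⟨n, t, b, h1, h2, h3, h4⟩ := Eig.eigd (d := d) lam V
  exact ⟨n, t, b, ⟨h1, h2, h3⟩, h4⟩

theorem cnt_mono (lam : ℝ) (V : AE.T d L → ℝ) {a a' : ℝ} (h : a ≤ a') :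
    cnt lam V a ≤ cnt lam V a' := by
  obtain ⟨n, t, b, -, h2⟩ := cnt_eq (d := d) lam V
  rw [h2, h2]
  refine Finset.card_le_card fun i hi => ?_
  rw [Finset.mem_filter] at hi ⊢
  exact ⟨hi.1, hi.2.trans h⟩

theorem cnt_le (lam : ℝ) (V : AE.T d L → ℝ) (a : ℝ) : cnt lam V a ≤ L ^ d := by
  unfold cnt numGE
  refine (Finset.card_filter_le _ _).trans (le_of_eq ?_)
  simp [ZMod.card]

theorem EB_shift {lam : ℝ} {V : AE.T d L → ℝ} {n : ℕ} {t : Fin n → ℝ}
    {b : Fin n → AE.T d L → ℝ} (h : EB lam V n t b) (x : AE.T d L) :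
    EB lam (fun y => V (y + x)) n t (fun i y => b i (y + x)) := by
  obtain ⟨h1, h2, h3⟩ := h
  have hs : ∀ F : AE.T d L → ℝ, ∑ y, F (y + x) = ∑ y, F y := fun F =>
    Equiv.sum_comp (Equiv.addRight x) F
  refine ⟨fun i y => ?_, fun f g => ?_, fun i => ?_⟩
  · rw [ql_eq]
    have h4 := h1 i (y + x)
    rw [ql_eq] at h4
    rw [← h4]
    unfold Hop
    have e1 : ∀ i : Fin d, y + Pi.single i 1 + x = y + x + Pi.single i 1 := fun i => by abel
    have e2 : ∀ i : Fin d, y - Pi.single i 1 + x = y + x - Pi.single i 1 := fun i => by abel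
    simp only [e1, e2]
  · have h4 := h2 (fun y => f (y - x)) (fun y => g (y - x))
    have e1 : ∑ y, f (y - x) * g (y - x) = ∑ y, f y * g y := sum_shift (fun y => f y * g y) x
    have e2 : ∀ (i : Fin n) (F : AE.T d L → ℝ), ∑ y, b i y * F (y - x) =
        ∑ y, b i (y + x) * F y := by
      intro i F
      rw [← hs fun y => b i y * F (y - x)]
      simp only [add_sub_cancel_right]
    rw [e1] at h4
    rw [h4]
    refine Finset.sum_congr rfl fun i _ => ?_
    rw [e2 i f, e2 i g]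
  · rw [hs fun y => b i y ^ 2]
    exact h3 i

/-- the potential seen in a box around the origin -/
def cut (h : ℕ) (V : AE.T d L → ℝ) : AE.T d (2 * h + 1) → ℝ := VT h (ext V 0) 0

theorem cut_inj {h : ℕ} (hL : 2 * h + 1 ≤ L) :
    Function.Injective fun t : AE.T d (2 * h + 1) => pr L (0 + lift t) + (0 : AE.T d L) := by
  intro s t hst
  have h1 : pr L (lift s) = pr L (lift t) := by simpa using hst
  have m : ∀ s : AE.T d (2 * h + 1), lift s ∈ box h (0 : Zd d) := by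
    intro s
    unfold box
    rw [Finset.mem_image]
    exact ⟨s, Finset.mem_univ _, by rw [zero_add]⟩
  exact lift_inj (pr_inj hL (m s) (m t) h1)

theorem cut_law (μ : Measure ℝ) [IsProbabilityMeasure μ] {h : ℕ} (hL : 2 * h + 1 ≤ L) :
    (Measure.pi fun _ : AE.T d L => μ).map (cut h) =
      Measure.pi fun _ : AE.T d (2 * h + 1) => μ :=
  map_pi μ (fun t : AE.T d (2 * h + 1) => pr L (0 + lift t) + (0 : AE.T d L)) (cut_inj hL)

theorem cut_meas (h : ℕ) : Measurable (cut (d := d) (L := L) h) :=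
  measurable_pi_lambda _ fun t => measurable_pi_apply _

theorem bad_eq (μ : Measure ℝ) [IsProbabilityMeasure μ] {h : ℕ} (hL : 2 * h + 1 ≤ L)
    (G : Set (AE.T d (2 * h + 1) → ℝ)) (hG : MeasurableSet G) :
    (Measure.pi fun _ : AE.T d L => μ).real {V | cut h V ∉ G} =
      (Measure.pi fun _ : AE.T d (2 * h + 1) => μ).real Gᶜ := by
  rw [← cut_law μ hL, map_measureReal_apply (cut_meas h) hG.compl]
  rfl

/-- expected number of eigenvalues at most `a`, per site -/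
noncomputable def dn (L : ℕ) [NeZero L] (d : ℕ) (μ : Measure ℝ) (lam a : ℝ) : ℝ :=
  (∫⁻ V, (cnt lam V a : ℝ≥0∞) ∂(Measure.pi fun _ : AE.T d L => μ)).toReal / (L : ℝ) ^ d

theorem lint_le (μ : Measure ℝ) [IsProbabilityMeasure μ] (lam a : ℝ) :
    ∫⁻ V, (cnt lam V a : ℝ≥0∞) ∂(Measure.pi fun _ : AE.T d L => μ) ≤ (L : ℝ≥0∞) ^ d := by
  refine (lintegral_mono (g := fun _ => (L : ℝ≥0∞) ^ d) fun V => ?_).trans (by simp)
  have := cnt_le (d := d) lam V a
  calc (cnt lam V a : ℝ≥0∞) ≤ ((L ^ d : ℕ) : ℝ≥0∞) := by exact_mod_cast this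
    _ = (L : ℝ≥0∞) ^ d := by push_cast; rfl

theorem lint_ne_top (μ : Measure ℝ) [IsProbabilityMeasure μ] (lam a : ℝ) :
    ∫⁻ V, (cnt lam V a : ℝ≥0∞) ∂(Measure.pi fun _ : AE.T d L => μ) ≠ ⊤ :=
  ne_top_of_le_ne_top (by simp) (lint_le (d := d) (L := L) μ lam a)

theorem L_pos' : (0 : ℝ) < L := by exact_mod_cast Nat.pos_of_ne_zero (NeZero.ne L)

theorem dn_mono (μ : Measure ℝ) [IsProbabilityMeasure μ] (lam : ℝ) {a a' : ℝ} (h : a ≤ a') :
    dn L d μ lam a ≤ dn L d μ lam a' := by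
  unfold dn
  refine div_le_div_of_nonneg_right ?_ (by have := L_pos' (L := L); positivity)
  refine ENNReal.toReal_mono (lint_ne_top (d := d) (L := L) μ lam a') (lintegral_mono fun V => ?_)
  exact Nat.cast_le.2 (cnt_mono (d := d) lam V h)

theorem dn_le_one (μ : Measure ℝ) [IsProbabilityMeasure μ] (lam a : ℝ) :
    dn L d μ lam a ≤ 1 := by
  have hL := L_pos' (L := L)
  unfold dn
  rw [div_le_one (by positivity)]
  have h1 := ENNReal.toReal_mono (by simp) (lint_le (d := d) (L := L) μ lam a)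
  simpa using h1

/-- **upper bound by a step function** -/
theorem upper (μ : Measure ℝ) [IsProbabilityMeasure μ] (lam a : ℝ) (N : ℕ) (s : ℕ → ℝ)
    (hs : ∀ k, 0 ≤ s k) (B : ℕ → Set (AE.T d L → ℝ)) (hB : ∀ k, MeasurableSet (B k))
    (h : ∀ k, k ≤ N → ∀ V : AE.T d L → ℝ, V ∉ B k → ∀ (n : ℕ) (t : Fin n → ℝ)
      (b : Fin n → AE.T d L → ℝ), EB lam V n t b → ms t b a 0 ≤ s k) :
    dn L d μ lam a ≤ s 0 + ∑ k ∈ Finset.range N, s (k + 1) *
      (Measure.pi fun _ : AE.T d L => μ).real (B k) +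
      (Measure.pi fun _ : AE.T d L => μ).real (B N) := by
  obtain ⟨P, hP⟩ : ∃ P : Measure (AE.T d L → ℝ), P = Measure.pi fun _ : AE.T d L => μ := ⟨_, rfl⟩
  have hPp : IsProbabilityMeasure P := by rw [hP]; infer_instance
  obtain ⟨F, hF⟩ : ∃ F : (AE.T d L → ℝ) → ℝ, F = fun ω => s 0 +
      ∑ k ∈ Finset.range N, s (k + 1) * (B k).indicator (fun _ => (1 : ℝ)) ω +
      (B N).indicator (fun _ => (1 : ℝ)) ω := ⟨_, rfl⟩
  have hnn : ∀ k ω, 0 ≤ (B k).indicator (fun _ => (1 : ℝ)) ω := fun k ω =>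
    Set.indicator_nonneg (fun _ _ => zero_le_one) _
  have hF0 : ∀ ω, 0 ≤ F ω := by
    intro ω
    rw [hF]
    have h1 : 0 ≤ ∑ k ∈ Finset.range N, s (k + 1) * (B k).indicator (fun _ => (1 : ℝ)) ω :=
      Finset.sum_nonneg fun k _ => mul_nonneg (hs _) (hnn k ω)
    have h2 := hs 0
    have h3 := hnn N ω
    positivity
  have hFm : Measurable F := by
    rw [hF]
    refine (measurable_const.add (Finset.measurable_sum _ fun k _ => ?_)).add ?_
    · exact (measurable_const.indicator (hB k)).const_mul _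
    · exact measurable_const.indicator (hB N)
  have hind : ∀ k, Integrable ((B k).indicator fun _ => (1 : ℝ)) P :=
    fun k => (integrable_const _).indicator (hB k)
  have hindI : ∀ k, ∫ ω, (B k).indicator (fun _ => (1 : ℝ)) ω ∂P = P.real (B k) := by
    intro k
    rw [integral_indicator (hB k), setIntegral_const, smul_eq_mul, mul_one]
  have hGi : Integrable (fun ω => ∑ k ∈ Finset.range N, s (k + 1) *
      (B k).indicator (fun _ => (1 : ℝ)) ω) P :=
    integrable_finsetSum _ fun k _ => (hind k).const_mul _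
  have hFI : ∫ ω, F ω ∂P = s 0 + ∑ k ∈ Finset.range N, s (k + 1) * P.real (B k) + P.real (B N) := by
    have hc : Integrable (fun _ : AE.T d L → ℝ => s 0) P := integrable_const _
    obtain ⟨g1, hg1⟩ : ∃ g1 : (AE.T d L → ℝ) → ℝ, g1 = fun ω => ∑ k ∈ Finset.range N, s (k + 1) *
      (B k).indicator (fun _ => (1 : ℝ)) ω := ⟨_, rfl⟩
    have hGi' : Integrable g1 P := by rw [hg1]; exact hGi
    have e1 : ∫ ω, g1 ω ∂P = ∑ k ∈ Finset.range N, s (k + 1) * P.real (B k) := by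
      rw [hg1, integral_finsetSum _ fun k _ => (hind k).const_mul _]
      exact Finset.sum_congr rfl fun k _ => by rw [integral_const_mul, hindI]
    have e2 : ∫ ω, F ω ∂P = ∫ ω, ((s 0 + g1 ω) + (B N).indicator (fun _ => (1 : ℝ)) ω) ∂P := by
      rw [hF, hg1]
    have e3 : ∫ ω, ((s 0 + g1 ω) + (B N).indicator (fun _ => (1 : ℝ)) ω) ∂P =
        ∫ ω, (s 0 + g1 ω) ∂P + ∫ ω, (B N).indicator (fun _ => (1 : ℝ)) ω ∂P :=
      integral_add (hc.add hGi') (hind N)
    have e4 : ∫ ω, (s 0 + g1 ω) ∂P = ∫ ω, s 0 ∂P + ∫ ω, g1 ω ∂P := integral_add hc hGi'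
    have e5 : ∫ ω, s 0 ∂P = s 0 := by simp
    rw [e2, e3, e4, e5, e1, hindI]
  have hFi : Integrable F P := by
    have hc : Integrable (fun _ : AE.T d L → ℝ => s 0) P := integrable_const _
    rw [hF]
    exact (hc.add hGi).add (hind N)
  -- pointwise
  have hpt : ∀ V : AE.T d L → ℝ, (cnt lam V a : ℝ≥0∞) ≤
      ∑ x : AE.T d L, ENNReal.ofReal (F fun y => V (y + x)) := by
    intro V
    obtain ⟨n, t, b, hb, hc⟩ := cnt_eq (d := d) lam V
    have h1 : (cnt lam V a : ℝ) = ∑ x, ms t b a x := by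
      rw [hc a]
      exact ms_sum hb a
    have h2 : ∀ x, ms t b a x ≤ F fun y => V (y + x) := by
      intro x
      have hbx := EB_shift hb x
      have e : ms t b a x = ms t (fun i y => b i (y + x)) a 0 := by
        unfold ms
        simp only [zero_add]
      rw [e, hF]
      exact step_bd N s hs B (fun y => V (y + x)) _
        (fun k hk hω => h k hk _ hω n t _ hbx) (ms_le_one hbx a 0)
    have h3 : (cnt lam V a : ℝ≥0∞) = ENNReal.ofReal (cnt lam V a : ℝ) := by simp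
    rw [h3, h1, ← ENNReal.ofReal_sum_of_nonneg fun x _ => hF0 _]
    exact ENNReal.ofReal_le_ofReal (Finset.sum_le_sum fun x _ => h2 x)
  have hsh : ∀ z : AE.T d L, P.map (fun V x => V (x + z)) = P := by
    intro z
    rw [hP]
    exact map_pi μ (fun x : AE.T d L => x + z) (add_left_injective z)
  have hmz : ∀ z : AE.T d L, Measurable fun (V : AE.T d L → ℝ) x => V (x + z) :=
    fun z => measurable_pi_lambda _ fun x => measurable_pi_apply _
  have hFe : Measurable fun V => ENNReal.ofReal (F V) := hFm.ennreal_ofReal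
  have hx : ∀ x : AE.T d L, ∫⁻ V, ENNReal.ofReal (F fun y => V (y + x)) ∂P =
      ENNReal.ofReal (∫ ω, F ω ∂P) := by
    intro x
    have h1 := lintegral_map (μ := P) hFe (hmz x)
    rw [hsh x] at h1
    rw [← h1, ofReal_integral_eq_lintegral_ofReal hFi (Eventually.of_forall hF0)]
  have htot : ∫⁻ V, (cnt lam V a : ℝ≥0∞) ∂P ≤
      (L : ℝ≥0∞) ^ d * ENNReal.ofReal (∫ ω, F ω ∂P) := by
    refine (lintegral_mono hpt).trans ?_
    have hmm : ∀ x ∈ (Finset.univ : Finset (AE.T d L)), Measurable fun V : AE.T d L → ℝ =>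
        ENNReal.ofReal (F fun y => V (y + x)) := fun x _ => hFe.comp (hmz x)
    rw [lintegral_finsetSum _ hmm]
    rw [Finset.sum_congr rfl fun x _ => hx x, Finset.sum_const, Finset.card_univ, nsmul_eq_mul]
    apply le_of_eq
    congr 1
    simp [ZMod.card]
  have hL := L_pos' (L := L)
  unfold dn
  rw [← hP, div_le_iff₀ (by positivity), ← hFI]
  have h4 := ENNReal.toReal_mono (ENNReal.mul_ne_top (by simp) ENNReal.ofReal_ne_top) htot
  rw [ENNReal.toReal_mul, ENNReal.toReal_ofReal (integral_nonneg hF0)] at h4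
  refine h4.trans (le_of_eq ?_)
  simp
  ring

theorem good_of {h : ℕ} {lam η K Es : ℝ} {V : AE.T d L → ℝ} (hη : η ≤ 1)
    (hf : AE.Core.FlatE lam η (K / ((2 * h + 1 : ℕ) : ℝ) ^ 2) Es (cut h V)) :
    GoodAt h lam K Es (ext V 0) 0 := by
  obtain ⟨E0, ψ, h1, h2, h3, -⟩ := hf
  exact ⟨E0, ψ, h1, fun y => ⟨(h2 y).1, (h2 y).2.trans (by linarith)⟩, h3⟩

end basic

/-- **multi-scale upper bound** -/
theorem multi (d p : ℕ) (hd : 1 ≤ d) (hdp : d ≤ 3 * p) (hd3 : d ≤ 3) (hp : 1 ≤ p) (hp2 : p ≤ 2)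
    (K : ℝ) (hK : 1 ≤ K) (b C : ℝ) (hC : 0 < C) (hF : Filt d K b C) (η : ℝ) (hη : η ≤ 1)
    (K1 c1 : ℝ) (hK1 : K ≤ K1) (hc1 : 0 < c1) (hc1' : c1 ≤ 1 / (49 * K)) :
    ∃ K2 : ℝ, 0 < K2 ∧ ∀ (μ : Measure ℝ) [IsProbabilityMeasure μ],
    ∀ lam : ℝ, 0 < lam → lam ≤ 1 → ∀ Es : ℝ, Flats d p μ lam η Es K →
    ∀ (L : ℕ) [NeZero L], ∀ y : ℝ, 0 < y → y ≤ 1 → 49 * K * lam ^ 2 ≤ y ^ p → 7 ≤ y * L →
    ∀ (S0 : ℝ) (hS0 : 0 ≤ S0) (a : ℝ), a ≤ Es + y ^ 2 →
    ∀ B0 : Set (AE.T d L → ℝ), MeasurableSet B0 →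
      (Measure.pi fun _ : AE.T d L => μ).real B0 ≤
        K1 * Real.exp (-(c1 * (y ^ p / lam ^ 2))) →
      (∀ V : AE.T d L → ℝ, V ∉ B0 → ∀ (n : ℕ) (t : Fin n → ℝ) (b : Fin n → AE.T d L → ℝ),
        EB lam V n t b → ms t b a 0 ≤ S0) →
      dn L d μ lam a ≤ S0 + K2 * y ^ d * Real.exp (-(c1 * (y ^ p / lam ^ 2) / 2)) := by
  have hK0 : 0 < K := by linarith
  have hK10 : 0 < K1 := by linarith
  refine ⟨16 * C * K1 * (768 * 2 ^ d / c1 ^ 4) + K1 * (6 * (8 / c1) ^ 3), by positivity, ?_⟩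
  intro μ _ lam hl hl1 Es hflat L _ y hy hy1 hyK hyL S0 hS0 a hbb B0 hB0 hPB0 hgood0
  have hl2 : 0 < lam ^ 2 := by positivity
  obtain ⟨x, hx⟩ : ∃ x, x = y ^ p / lam ^ 2 := ⟨_, rfl⟩
  have hx1 : 49 * K ≤ x := by rw [hx, le_div_iff₀ hl2]; exact hyK
  have hx1' : 1 ≤ x := by linarith
  rw [← hx] at hPB0 ⊢
  -- number of scales
  have hy1' : 1 ≤ 1 / y := by rw [le_div_iff₀ hy]; linarith
  obtain ⟨N, hN1, hN2⟩ := exists_nat_pow_near hy1' (one_lt_two)
  have hN1' : (2 : ℝ) ^ N * y ≤ 1 := by rwa [le_div_iff₀ hy] at hN1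
  have hN2' : 1 < (2 : ℝ) ^ (N + 1) * y := by rwa [div_lt_iff₀ hy] at hN2
  -- the scales
  obtain ⟨yk, hyk⟩ : ∃ yk : ℕ → ℝ, yk = fun k => 2 ^ k * y := ⟨_, rfl⟩
  have hyk0 : ∀ k, 0 < yk k := fun k => by rw [hyk]; positivity
  have hyky : ∀ k, y ≤ yk k := fun k => by
    rw [hyk]
    exact le_mul_of_one_le_left hy.le (one_le_pow₀ (by norm_num))
  have hyk1 : ∀ k, k ≤ N → yk k ≤ 1 := by
    intro k hk
    rw [hyk]
    refine le_trans ?_ hN1'
    exact mul_le_mul_of_nonneg_right (pow_le_pow_right₀ (by norm_num) hk) hy.le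
  have hex : ∀ k, ∃ (h : ℕ) (G : Set (AE.T d (2 * h + 1) → ℝ)), k ≤ N → 0 < h ∧
      2 * h + 1 ≤ L ∧ 4 / (h : ℝ) ^ 2 ≤ (yk k) ^ 2 ∧ MeasurableSet G ∧
      (Measure.pi fun _ : AE.T d (2 * h + 1) => μ).real Gᶜ ≤
        K1 * Real.exp (-(c1 * ((2 ^ p) ^ k * x))) ∧
      ∀ V ∈ G, AE.Core.FlatE lam η (K / ((2 * h + 1 : ℕ) : ℝ) ^ 2) Es V := by
    intro k
    by_cases hk : k ≤ N
    swap
    · exact ⟨0, ∅, fun h => absurd h hk⟩
    obtain ⟨h, hh⟩ : ∃ h : ℕ, h = ⌈2 / yk k⌉₊ := ⟨_, rfl⟩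
    have h2y : 2 ≤ 2 / yk k := by
      rw [le_div_iff₀ (hyk0 k)]
      have := hyk1 k hk
      linarith
    have hh1 : 2 / yk k ≤ h := by rw [hh]; exact Nat.le_ceil _
    have hh2 : (h : ℝ) < 2 / yk k + 1 := by rw [hh]; exact Nat.ceil_lt_add_one (by linarith)
    have hh0 : (0 : ℝ) < h := by linarith
    have hL : ((2 * h + 1 : ℕ) : ℝ) ≤ 7 / yk k := by
      push_cast
      have e : 7 / yk k = 2 * (2 / yk k) + 3 * (1 / yk k) := by ring
      have e2 : 1 ≤ 1 / yk k := by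
        rw [le_div_iff₀ (hyk0 k)]
        have := hyk1 k hk
        linarith
      rw [e]
      linarith
    have hL0 : (0 : ℝ) < ((2 * h + 1 : ℕ) : ℝ) := by positivity
    have hpow : lam ^ 2 * ((2 * h + 1 : ℕ) : ℝ) ^ p ≤ 49 / ((2 ^ p) ^ k * x) := by
      have h7 : (7 : ℝ) ^ p ≤ 49 := by
        calc (7 : ℝ) ^ p ≤ 7 ^ 2 := pow_le_pow_right₀ (by norm_num) hp2
          _ = 49 := by norm_num
      have hykp : (yk k) ^ p = (2 ^ p) ^ k * y ^ p := by
        rw [hyk]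
        show (2 ^ k * y) ^ p = (2 ^ p) ^ k * y ^ p
        rw [mul_pow, ← pow_mul, ← pow_mul, mul_comm k p]
      have h8 : ((2 * h + 1 : ℕ) : ℝ) ^ p ≤ 7 ^ p / (yk k) ^ p := by
        rw [← div_pow]
        exact pow_le_pow_left₀ hL0.le hL p
      calc lam ^ 2 * ((2 * h + 1 : ℕ) : ℝ) ^ p ≤ lam ^ 2 * (7 ^ p / (yk k) ^ p) := by gcongr
        _ ≤ lam ^ 2 * (49 / (yk k) ^ p) := by
            have := pow_pos (hyk0 k) p
            gcongr
        _ = 49 / ((2 ^ p) ^ k * x) := by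
            rw [hykp, hx]
            field_simp
    have hpk : (1 : ℝ) ≤ (2 ^ p) ^ k := one_le_pow₀ (one_le_pow₀ (by norm_num))
    have hcond : K * (lam ^ 2 * ((2 * h + 1 : ℕ) : ℝ) ^ p) ≤ 1 := by
      have h9 : 49 / ((2 ^ p) ^ k * x) ≤ 1 / K := by
        rw [div_le_div_iff₀ (by positivity) hK0]
        have : 1 * x ≤ (2 ^ p) ^ k * x := mul_le_mul_of_nonneg_right hpk (by linarith)
        linarith
      calc K * (lam ^ 2 * ((2 * h + 1 : ℕ) : ℝ) ^ p) ≤ K * (1 / K) := by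
            gcongr
            exact hpow.trans h9
        _ = 1 := by field_simp
    obtain ⟨G, hG, hP, hfl⟩ := hflat (2 * h + 1) hcond
    refine ⟨h, G, fun _ => ⟨by exact_mod_cast hh0, ?_, ?_, hG, ?_, hfl⟩⟩
    · have h3 : ((2 * h + 1 : ℕ) : ℝ) ≤ L := by
        refine hL.trans ?_
        rw [div_le_iff₀ (hyk0 k)]
        have h4 : y * L ≤ yk k * L := mul_le_mul_of_nonneg_right (hyky k) (Nat.cast_nonneg L)
        linarith
      exact_mod_cast h3
    · rw [div_le_iff₀ (by positivity)]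
      have h3 : 2 ≤ yk k * h := by
        rw [div_le_iff₀ (hyk0 k)] at hh1
        linarith
      calc (4 : ℝ) = 2 ^ 2 := by norm_num
        _ ≤ (yk k * h) ^ 2 := pow_le_pow_left₀ (by norm_num) h3 2
        _ = _ := by ring
    · rw [probReal_compl_eq_one_sub hG]
      have h4 : K * Real.exp (-(1 / (K * (lam ^ 2 * ((2 * h + 1 : ℕ) : ℝ) ^ p)))) ≤
          K1 * Real.exp (-(c1 * ((2 ^ p) ^ k * x))) := by
        refine mul_le_mul hK1 (Real.exp_le_exp.2 (neg_le_neg ?_)) (Real.exp_pos _).le hK10.le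
        have h5 : c1 * ((2 ^ p) ^ k * x) ≤ 1 / (49 * K) * ((2 ^ p) ^ k * x) := by gcongr
        refine h5.trans ?_
        have h6 : 0 < lam ^ 2 * ((2 * h + 1 : ℕ) : ℝ) ^ p := by positivity
        rw [le_div_iff₀ (by positivity)]
        calc 1 / (49 * K) * ((2 ^ p) ^ k * x) * (K * (lam ^ 2 * ((2 * h + 1 : ℕ) : ℝ) ^ p)) ≤
              1 / (49 * K) * ((2 ^ p) ^ k * x) * (K * (49 / ((2 ^ p) ^ k * x))) := by gcongr
          _ = 1 := by field_simp
      linarith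
  choose hk Gk hGk using hex
  obtain ⟨B, hB⟩ : ∃ B : ℕ → Set (AE.T d L → ℝ), B = fun k => if k = 0 then B0 else
    if k ≤ N then {ω | cut (hk k) ω ∉ Gk k} else ∅ := ⟨_, rfl⟩
  have hBm : ∀ k, MeasurableSet (B k) := by
    intro k
    rw [hB]
    by_cases h0 : k = 0
    · simp only [h0, if_true]; exact hB0
    · by_cases h1 : k ≤ N
      · simp only [h0, h1, if_true, if_false]
        exact (cut_meas (hk k)) (hGk k h1).2.2.2.1.compl
      · simp only [h0, h1, if_false]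
        exact MeasurableSet.empty
  have hBP : ∀ k, k ≤ N → (Measure.pi fun _ : AE.T d L => μ).real (B k) ≤
      K1 * Real.exp (-(c1 * ((2 ^ p) ^ k * x))) := by
    intro k hkN
    rw [hB]
    by_cases h0 : k = 0
    · subst h0
      simp only [if_true, pow_zero, one_mul]
      exact hPB0
    · simp only [h0, hkN, if_true, if_false]
      obtain ⟨-, hLk, -, hm, hP, -⟩ := hGk k hkN
      rw [bad_eq μ hLk _ hm]
      exact hP
  obtain ⟨s, hs⟩ : ∃ s : ℕ → ℝ, s = fun k => if k = 0 then S0 else 16 * (C * (yk k) ^ d) := ⟨_, rfl⟩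
  have hs0 : ∀ k, 0 ≤ s k := by
    intro k
    rw [hs]
    have := hyk0 k
    by_cases h0 : k = 0
    · simp only [h0, if_true]; exact hS0
    · simp only [h0, if_false]; positivity
  have hrp : ∀ z : ℝ, 0 < z → (z ^ 2) ^ ((d : ℝ) / 2) = z ^ d := by
    intro z hz
    rw [← Real.rpow_natCast z 2, ← Real.rpow_mul hz.le, ← Real.rpow_natCast z d]
    congr 1
    push_cast
    ring
  have hmain := upper (d := d) (L := L) μ lam a N s hs0 B hBm (by
    intro k hkN ω hω n t b hb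
    rw [hB] at hω
    rw [hs]
    by_cases h0 : k = 0
    · subst h0
      simp only [if_true] at hω ⊢
      exact hgood0 ω hω n t b hb
    · simp only [h0, hkN, if_true, if_false] at hω ⊢
      have hω' : cut (hk k) ω ∈ Gk k := by
        by_contra hc
        exact hω hc
      obtain ⟨g1, g1', g2, g3, g4, g5⟩ := hGk k hkN
      have hgd := good_of hη (g5 _ hω')
      have hykk : (yk k) ^ 2 ≤ 1 := pow_le_one₀ (hyk0 k).le (hyk1 k hkN)
      have h7 := mb hF (hk k) g1 g1' lam Es hb 0 hgd ((yk k) ^ 2) g2 hykk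
      rw [hrp _ (hyk0 k)] at h7
      refine le_trans (ms_mono t b ?_ 0) h7
      have h8 : y ^ 2 ≤ (yk k) ^ 2 := pow_le_pow_left₀ hy.le (hyky k) 2
      linarith)
  refine hmain.trans ?_
  have hs00 : s 0 = S0 := by rw [hs]; simp
  rw [hs00]
  have hsum : ∑ k ∈ Finset.range N, s (k + 1) * (Measure.pi fun _ : AE.T d L => μ).real (B k) ≤
      16 * C * K1 * (768 * 2 ^ d / c1 ^ 4) * y ^ d * Real.exp (-(c1 * x / 2)) := by
    have h1 : ∀ k ∈ Finset.range N, s (k + 1) *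
        (Measure.pi fun _ : AE.T d L => μ).real (B k) ≤
        16 * C * K1 * y ^ d * ((2 ^ d) ^ (k + 1) * Real.exp (-(c1 * ((2 ^ p) ^ k * x)))) := by
      intro k hkN
      have hkN' : k ≤ N := (Finset.mem_range.1 hkN).le
      have h2 : s (k + 1) = 16 * (C * ((2 ^ d) ^ (k + 1) * y ^ d)) := by
        rw [hs, hyk]
        simp only [Nat.succ_ne_zero, if_false]
        rw [mul_pow, ← pow_mul, ← pow_mul, mul_comm (k + 1) d]
      calc s (k + 1) * (Measure.pi fun _ : AE.T d L => μ).real (B k) ≤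
            s (k + 1) * (K1 * Real.exp (-(c1 * ((2 ^ p) ^ k * x)))) :=
            mul_le_mul_of_nonneg_left (hBP k hkN') (hs0 _)
        _ = _ := by rw [h2]; ring
    refine (Finset.sum_le_sum h1).trans ?_
    rw [← Finset.mul_sum]
    have hr2 : (2 : ℝ) ≤ 2 ^ p := by
      calc (2 : ℝ) = 2 ^ 1 := by norm_num
        _ ≤ 2 ^ p := pow_le_pow_right₀ (by norm_num) hp
    have hwr : (2 : ℝ) ^ d ≤ (2 ^ p) ^ 3 := by
      rw [← pow_mul]
      exact pow_le_pow_right₀ (by norm_num) (by omega)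
    have h3 := gs (2 ^ p) (2 ^ d) c1 x hr2 (by positivity) hwr hc1 hx1' N
    calc 16 * C * K1 * y ^ d * ∑ k ∈ Finset.range N,
          (2 ^ d) ^ (k + 1) * Real.exp (-(c1 * ((2 ^ p) ^ k * x))) ≤
          16 * C * K1 * y ^ d * ((768 * 2 ^ d / c1 ^ 4) * Real.exp (-(c1 * x / 2))) := by gcongr
      _ = _ := by ring
  have hlast : (Measure.pi fun _ : AE.T d L => μ).real (B N) ≤
      K1 * (6 * (8 / c1) ^ 3) * y ^ d * Real.exp (-(c1 * x / 2)) := by
    refine (hBP N le_rfl).trans ?_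
    obtain ⟨z, hz⟩ : ∃ z, z = c1 * ((2 ^ p) ^ N * x) / 2 := ⟨_, rfl⟩
    have e1 : Real.exp (-(c1 * ((2 ^ p) ^ N * x))) = Real.exp (-z) * Real.exp (-z) := by
      rw [← Real.exp_add, hz]
      congr 1
      ring
    have hpN : (1 : ℝ) ≤ (2 ^ p) ^ N := one_le_pow₀ (one_le_pow₀ (by norm_num))
    have hz2 : c1 * x / 2 ≤ z := by
      rw [hz]
      have : 1 * x ≤ (2 ^ p) ^ N * x := mul_le_mul_of_nonneg_right hpN (by linarith)
      have h2 : c1 * (1 * x) ≤ c1 * ((2 ^ p) ^ N * x) := mul_le_mul_of_nonneg_left this hc1.le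
      linarith
    have hhalf : (1 : ℝ) / 4 ≤ (2 ^ p) ^ N * y ^ p := by
      have h1 : (1 : ℝ) / 2 ≤ 2 ^ N * y := by
        rw [pow_succ] at hN2'
        linarith
      have h2 : ((1 : ℝ) / 2) ^ p ≤ (2 ^ N * y) ^ p := pow_le_pow_left₀ (by norm_num) h1 p
      have h3 : ((1 : ℝ) / 4) ≤ (1 / 2) ^ p := by
        calc ((1 : ℝ) / 4) = (1 / 2) ^ 2 := by norm_num
          _ ≤ (1 / 2) ^ p := pow_le_pow_of_le_one (by norm_num) (by norm_num) hp2
      calc (1 : ℝ) / 4 ≤ (2 ^ N * y) ^ p := h3.trans h2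
        _ = (2 ^ p) ^ N * y ^ p := by rw [mul_pow, ← pow_mul, ← pow_mul, mul_comm N p]
    have hz3 : c1 / (8 * lam ^ 2) ≤ z := by
      rw [hz, hx, div_le_div_iff₀ (by positivity) (by norm_num)]
      have h1 : c1 * ((2 ^ p) ^ N * (y ^ p / lam ^ 2)) * (8 * lam ^ 2) =
          c1 * (8 * ((2 ^ p) ^ N * y ^ p)) := by
        field_simp
      rw [h1]
      have : c1 * (8 * (1 / 4)) ≤ c1 * (8 * ((2 ^ p) ^ N * y ^ p)) := by gcongr
      linarith
    have hz0 : 0 < c1 / (8 * lam ^ 2) := by positivity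
    have h3 : Real.exp (-z) ≤ Real.exp (-(c1 * x / 2)) := Real.exp_le_exp.2 (neg_le_neg hz2)
    have h4 : Real.exp (-z) ≤ 6 * (8 / c1) ^ 3 * y ^ d := by
      have h5 : Real.exp (-z) ≤ Real.exp (-(c1 / (8 * lam ^ 2))) :=
        Real.exp_le_exp.2 (neg_le_neg hz3)
      refine h5.trans ((exp3 _ hz0).trans ?_)
      have h6 : lam ^ 2 ≤ y := by
        have h7 : y ^ p ≤ y := by
          calc y ^ p ≤ y ^ 1 := pow_le_pow_of_le_one hy.le hy1 hp
            _ = y := pow_one y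
        have h8 : lam ^ 2 ≤ 49 * K * lam ^ 2 := le_mul_of_one_le_left hl2.le (by linarith)
        linarith
      have h7 : (lam ^ 2) ^ 3 ≤ y ^ d := by
        calc (lam ^ 2) ^ 3 ≤ y ^ 3 := pow_le_pow_left₀ hl2.le h6 3
          _ ≤ y ^ d := pow_le_pow_of_le_one hy.le hy1 hd3
      calc 6 / (c1 / (8 * lam ^ 2)) ^ 3 = 6 * (8 / c1) ^ 3 * (lam ^ 2) ^ 3 := by
            field_simp
        _ ≤ 6 * (8 / c1) ^ 3 * y ^ d := by gcongr
    rw [e1]
    calc K1 * (Real.exp (-z) * Real.exp (-z)) ≤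
          K1 * ((6 * (8 / c1) ^ 3 * y ^ d) * Real.exp (-(c1 * x / 2))) := by gcongr
      _ = _ := by ring
  have e : S0 + (16 * C * K1 * (768 * 2 ^ d / c1 ^ 4) + K1 * (6 * (8 / c1) ^ 3)) * y ^ d *
      Real.exp (-(c1 * x / 2)) = S0 +
      16 * C * K1 * (768 * 2 ^ d / c1 ^ 4) * y ^ d * Real.exp (-(c1 * x / 2)) +
      K1 * (6 * (8 / c1) ^ 3) * y ^ d * Real.exp (-(c1 * x / 2)) := by ring
  rw [e]
  linarith


end Pool.Agent.H69.DS.Mul
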